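import Pool.Agent.Q233.SV.Defs

/-!
# Partial derivatives on `ℝ⁴` and conformal maps of Minkowski space
-/

namespace Pool.Agent.Q233.SV

open Real Set Filter Topology
open scoped ContDiff

/-- partial derivative -/
noncomputable def pd (i : Fin 4) (f : R4 → ℝ) (x : R4) : ℝ := fderiv ℝ f x (Pi.single i 1)

theorem pd_add {f g : R4 → ℝ} {x : R4} (hf : DifferentiableAt ℝ f x)
    (hg : DifferentiableAt ℝ g x) (i : Fin 4) :
    pd i (fun y => f y + g y) x = pd i f x + pd i g x := by
  simp [pd, fderiv_fun_add hf hg]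

theorem pd_sub {f g : R4 → ℝ} {x : R4} (hf : DifferentiableAt ℝ f x)
    (hg : DifferentiableAt ℝ g x) (i : Fin 4) :
    pd i (fun y => f y - g y) x = pd i f x - pd i g x := by
  simp [pd, fderiv_fun_sub hf hg]

theorem pd_neg {f : R4 → ℝ} {x : R4} (i : Fin 4) :
    pd i (fun y => - f y) x = - pd i f x := by
  simp [pd, fderiv_fun_neg]

theorem pd_mul {f g : R4 → ℝ} {x : R4} (hf : DifferentiableAt ℝ f x)
    (hg : DifferentiableAt ℝ g x) (i : Fin 4) :
    pd i (fun y => f y * g y) x = f x * pd i g x + g x * pd i f x := by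
  simp [pd, fderiv_fun_mul hf hg]

theorem pd_const (c : ℝ) (x : R4) (i : Fin 4) : pd i (fun _ => c) x = 0 := by
  simp [pd]

theorem pd_coord (j : Fin 4) (x : R4) (i : Fin 4) :
    pd i (fun y => y j) x = if j = i then 1 else 0 := by
  have h : HasFDerivAt (fun y : R4 => y j) (ContinuousLinearMap.proj (R := ℝ) j) x :=
    (ContinuousLinearMap.proj (R := ℝ) (φ := fun _ : Fin 4 => ℝ) j).hasFDerivAt
  rw [pd, h.fderiv]
  simp [Pi.single_apply]

theorem pd_comp {g : ℝ → ℝ} {f : R4 → ℝ} {x : R4} {g' : ℝ} (hg : HasDerivAt g g' (f x))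
    (hf : DifferentiableAt ℝ f x) (i : Fin 4) :
    pd i (fun y => g (f y)) x = g' * pd i f x := by
  have h := hg.comp_hasFDerivAt x hf.hasFDerivAt
  have h2 : fderiv ℝ (fun y => g (f y)) x = g' • fderiv ℝ f x := h.fderiv
  rw [pd, h2]
  simp [pd]

theorem pd_congr {f g : R4 → ℝ} {W : Set R4} (hW : IsOpen W) (h : ∀ x ∈ W, f x = g x) {x : R4}
    (hx : x ∈ W) (i : Fin 4) : pd i f x = pd i g x := by
  have : f =ᶠ[𝓝 x] g := Filter.eventually_of_mem (hW.mem_nhds hx) h
  rw [pd, pd, this.fderiv_eq]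

theorem pd_contDiffOn {f : R4 → ℝ} {W : Set R4} (hW : IsOpen W) {n m : ℕ∞ω}
    (hf : ContDiffOn ℝ n f W) (hmn : m + 1 ≤ n) (i : Fin 4) : ContDiffOn ℝ m (pd i f) W :=
  (hf.fderiv_of_isOpen hW hmn).clm_apply contDiffOn_const

theorem pd_comm {f : R4 → ℝ} {x : R4} (hf : ContDiffAt ℝ 2 f x) (i j : Fin 4) :
    pd i (pd j f) x = pd j (pd i f) x := by
  have hs : IsSymmSndFDerivAt ℝ f x := hf.isSymmSndFDerivAt (by simp)
  have hd : DifferentiableAt ℝ (fderiv ℝ f) x :=
    (hf.fderiv_right (m := 1) (by norm_num)).differentiableAt (by norm_num)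
  have key : ∀ i j : Fin 4, pd i (pd j f) x
      = fderiv ℝ (fderiv ℝ f) x (Pi.single i 1) (Pi.single j 1) := by
    intro i j
    have : fderiv ℝ (pd j f) x = (fderiv ℝ (fderiv ℝ f) x).flip (Pi.single j 1) := by
      have h := hd.hasFDerivAt.clm_apply (hasFDerivAt_const (Pi.single j 1 : R4) x)
      have h' := h.fderiv
      have e : (fun y => fderiv ℝ f y (Pi.single j 1)) = pd j f := rfl
      rw [← e, h']
      ext v
      simp
    rw [pd, this]
    simp
  rw [key, key]
  exact hs.eq _ _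

/-- signs of the Minkowski metric -/
def ep : Fin 4 → ℝ := ![1, -1, -1, -1]

/-- the Minkowski metric -/
def et (i j : Fin 4) : ℝ := if i = j then ep i else 0

theorem ep_sq (i : Fin 4) : ep i * ep i = 1 := by
  fin_cases i <;> simp [ep]

theorem et_symm (i j : Fin 4) : et i j = et j i := by
  fin_cases i <;> fin_cases j <;> simp [et, ep]

/-- transposing the relation `Mᵀ η M = η`. -/
theorem transp (M : Fin 4 → Fin 4 → ℝ)
    (h : ∀ i j, ∑ a, ep a * M a i * M a j = et i j) (a b : Fin 4) :
    ∑ k, ep k * M a k * M b k = et a b := by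
  let N : Matrix (Fin 4) (Fin 4) ℝ := Matrix.of M
  let D : Matrix (Fin 4) (Fin 4) ℝ := Matrix.diagonal ep
  have hD : D * D = 1 := by
    rw [Matrix.diagonal_mul_diagonal]
    ext i j
    by_cases hij : i = j
    · subst hij; simp [ep_sq]
    · simp [hij]
  have e1 : N.transpose * D * N = D := by
    ext i j
    rw [Matrix.mul_apply]
    have := h i j
    simp only [D, N, Matrix.mul_diagonal, Matrix.transpose_apply, Matrix.of_apply]
    rw [show (∑ a, M a i * ep a * M a j) = ∑ a, ep a * M a i * M a j from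
      Finset.sum_congr rfl fun a _ => by ring, this]
    by_cases hij : i = j
    · subst hij; simp [et]
    · simp [et, hij]
  have e2 : (D * N.transpose * D) * N = 1 := by
    rw [Matrix.mul_assoc, Matrix.mul_assoc, ← Matrix.mul_assoc N.transpose, e1, hD]
  have e3 : N * (D * N.transpose * D) = 1 := mul_eq_one_comm.mp e2
  have e4 : N * D * N.transpose = D := by
    calc N * D * N.transpose = N * (D * N.transpose * D) * D := by
          simp only [Matrix.mul_assoc, hD, Matrix.mul_one]
      _ = D := by rw [e3, Matrix.one_mul]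
  have e5 := congrFun (congrFun e4 a) b
  rw [Matrix.mul_apply] at e5
  simp only [D, N, Matrix.mul_diagonal, Matrix.transpose_apply, Matrix.of_apply] at e5
  rw [show (∑ k, ep k * M a k * M b k) = ∑ k, M a k * ep k * M b k from
      Finset.sum_congr rfl fun a _ => by ring, e5]
  by_cases hab : a = b
  · subst hab; simp [et]
  · simp [et, hab]

end Pool.Agent.Q233.SV
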