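import Pool.Agent.Q233.SV.A

/-!
# Conformal maps of Minkowski space: the second derivatives and the conformal factor
-/

namespace Pool.Agent.Q233.SV

open Real Set Filter Topology
open scoped ContDiff

/-- `Φ` is a conformal map of class `C³` of the open set `W` into Minkowski space, with
`Φ^* η = s⁻² η`. -/
structure Conf (W : Set R4) (Φ : Fin 4 → R4 → ℝ) (s : R4 → ℝ) : Prop where
  isOpen : IsOpen W
  smΦ : ∀ a, ContDiffOn ℝ 3 (Φ a) W
  sms : ContDiffOn ℝ 3 s W
  pos : ∀ x ∈ W, 0 < s x
  conf : ∀ x ∈ W, ∀ i j, ∑ a, ep a * (s x * pd i (Φ a) x) * (s x * pd j (Φ a) x) = et i j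

namespace Conf

variable {W : Set R4} {Φ : Fin 4 → R4 → ℝ} {s : R4 → ℝ} (h : Conf W Φ s)

include h

theorem conf' {x : R4} (hx : x ∈ W) (a b : Fin 4) :
    ∑ k, ep k * (s x * pd k (Φ a) x) * (s x * pd k (Φ b) x) = et a b :=
  transp (fun a i => s x * pd i (Φ a) x) (h.conf x hx) a b

theorem dΦ {x : R4} (hx : x ∈ W) (a : Fin 4) : DifferentiableAt ℝ (Φ a) x :=
  ((h.smΦ a).contDiffAt (h.isOpen.mem_nhds hx)).differentiableAt (by norm_num)

theorem ds {x : R4} (hx : x ∈ W) : DifferentiableAt ℝ s x :=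
  (h.sms.contDiffAt (h.isOpen.mem_nhds hx)).differentiableAt (by norm_num)

theorem smpΦ (a i : Fin 4) : ContDiffOn ℝ 2 (pd i (Φ a)) W :=
  pd_contDiffOn h.isOpen (h.smΦ a) (by norm_num) i

theorem smps (i : Fin 4) : ContDiffOn ℝ 2 (pd i s) W :=
  pd_contDiffOn h.isOpen h.sms (by norm_num) i

theorem smppΦ (a i j : Fin 4) : ContDiffOn ℝ 1 (pd i (pd j (Φ a))) W :=
  pd_contDiffOn h.isOpen (h.smpΦ a j) (by norm_num) i

theorem smpps (i j : Fin 4) : ContDiffOn ℝ 1 (pd i (pd j s)) W :=
  pd_contDiffOn h.isOpen (h.smps j) (by norm_num) i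

theorem dpΦ {x : R4} (hx : x ∈ W) (a i : Fin 4) : DifferentiableAt ℝ (pd i (Φ a)) x :=
  ((h.smpΦ a i).contDiffAt (h.isOpen.mem_nhds hx)).differentiableAt (by norm_num)

theorem dps {x : R4} (hx : x ∈ W) (i : Fin 4) : DifferentiableAt ℝ (pd i s) x :=
  ((h.smps i).contDiffAt (h.isOpen.mem_nhds hx)).differentiableAt (by norm_num)

theorem dppΦ {x : R4} (hx : x ∈ W) (a i j : Fin 4) :
    DifferentiableAt ℝ (pd i (pd j (Φ a))) x :=
  ((h.smppΦ a i j).contDiffAt (h.isOpen.mem_nhds hx)).differentiableAt (by norm_num)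

theorem dpps {x : R4} (hx : x ∈ W) (i j : Fin 4) : DifferentiableAt ℝ (pd i (pd j s)) x :=
  ((h.smpps i j).contDiffAt (h.isOpen.mem_nhds hx)).differentiableAt (by norm_num)

theorem commΦ {x : R4} (hx : x ∈ W) (a i j : Fin 4) :
    pd i (pd j (Φ a)) x = pd j (pd i (Φ a)) x :=
  pd_comm (((h.smΦ a).contDiffAt (h.isOpen.mem_nhds hx)).of_le (by norm_num)) i j

theorem comms {x : R4} (hx : x ∈ W) (i j : Fin 4) :
    pd i (pd j s) x = pd j (pd i s) x :=
  pd_comm ((h.sms.contDiffAt (h.isOpen.mem_nhds hx)).of_le (by norm_num)) i j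

/-- derivative of the conformality relation. -/
theorem dconf {x : R4} (hx : x ∈ W) (k i j : Fin 4) :
    (∑ a, ep a * pd k (pd i (Φ a)) x * pd j (Φ a) x)
      + (∑ a, ep a * pd k (pd j (Φ a)) x * pd i (Φ a) x)
      = - 2 * pd k s x * et i j / s x ^ 3 := by
  have hs := h.pos x hx
  have e : ∀ y ∈ W, (fun y => ∑ a, ep a * (s y * pd i (Φ a) y) * (s y * pd j (Φ a) y)) y
      = (fun _ => et i j) y := fun y hy => h.conf y hy i j
  have e2 := pd_congr h.isOpen e hx k
  rw [pd_const] at e2
  simp only [Fin.sum_univ_four] at e2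
  have D1 : ∀ a, DifferentiableAt ℝ (fun y => ep a * (s y * pd i (Φ a) y)) x := fun a =>
    (differentiableAt_const _).fun_mul ((h.ds hx).fun_mul (h.dpΦ hx a i))
  have D2 : ∀ a, DifferentiableAt ℝ (fun y => (s y * pd j (Φ a) y)) x := fun a =>
    ((h.ds hx).fun_mul (h.dpΦ hx a j))
  have D3 : ∀ a, DifferentiableAt ℝ (fun y => ep a * (s y * pd i (Φ a) y)
      * (s y * pd j (Φ a) y)) x := fun a => (D1 a).fun_mul (D2 a)
  rw [pd_add (((D3 0).fun_add (D3 1)).fun_add (D3 2)) (D3 3),
    pd_add ((D3 0).fun_add (D3 1)) (D3 2), pd_add (D3 0) (D3 1)] at e2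
  have T : ∀ a, pd k (fun y => ep a * (s y * pd i (Φ a) y) * (s y * pd j (Φ a) y)) x
      = ep a * (2 * s x * pd k s x * pd i (Φ a) x * pd j (Φ a) x
        + s x ^ 2 * (pd k (pd i (Φ a)) x * pd j (Φ a) x
          + pd k (pd j (Φ a)) x * pd i (Φ a) x)) := by
    intro a
    rw [pd_mul (D1 a) (D2 a),
      pd_mul (differentiableAt_const _) ((h.ds hx).fun_mul (h.dpΦ hx a i)), pd_const, pd_mul (h.ds hx) (h.dpΦ hx a i), pd_mul (h.ds hx) (h.dpΦ hx a j)]
    ring
  simp only [T] at e2
  have c := h.conf x hx i j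
  simp only [Fin.sum_univ_four] at c ⊢
  field_simp
  linear_combination s x * e2 - 2 * pd k s x * c

/-- Christoffel's trick. -/
theorem chris {x : R4} (hx : x ∈ W) (i j k : Fin 4) :
    (∑ a, ep a * pd i (pd j (Φ a)) x * pd k (Φ a) x)
      = - (pd i s x * et j k + pd j s x * et i k - pd k s x * et i j) / s x ^ 3 := by
  have hs := h.pos x hx
  have e1 := h.dconf hx i j k
  have e2 := h.dconf hx j i k
  have e3 := h.dconf hx k i j
  have c1 : ∀ a, pd i (pd k (Φ a)) x = pd k (pd i (Φ a)) x := fun a => h.commΦ hx a i k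
  have c2 : ∀ a, pd j (pd i (Φ a)) x = pd i (pd j (Φ a)) x := fun a => h.commΦ hx a j i
  have c3 : ∀ a, pd j (pd k (Φ a)) x = pd k (pd j (Φ a)) x := fun a => h.commΦ hx a j k
  simp only [c1] at e1
  simp only [c2, c3] at e2
  field_simp at e1 e2 e3 ⊢
  linear_combination (e1 + e2 - e3) / 2

/-- the second derivatives of a conformal map. -/
theorem second {x : R4} (hx : x ∈ W) (a i j : Fin 4) :
    s x * pd i (pd j (Φ a)) x = - pd i s x * pd j (Φ a) x - pd j s x * pd i (Φ a) x
      + et i j * ∑ k, ep k * pd k s x * pd k (Φ a) x := by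
  have hs := h.pos x hx
  let Z : Fin 4 → ℝ := fun b => s x * pd i (pd j (Φ b)) x + pd i s x * pd j (Φ b) x
    + pd j s x * pd i (Φ b) x - et i j * ∑ k, ep k * pd k s x * pd k (Φ b) x
  have hZ : ∀ k, ∑ b, ep b * Z b * (s x * pd k (Φ b) x) = 0 := by
    intro k
    have c0 := h.chris hx i j k
    have c1 := h.conf x hx j k
    have c2 := h.conf x hx i k
    have c4 : ∀ l, ∑ a, ep a * (s x * pd l (Φ a) x) * (s x * pd k (Φ a) x) = et l k :=
      fun l => h.conf x hx l k
    have c5 : ∑ l, ep l * pd l s x * et l k = pd k s x := by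
      fin_cases k <;> simp [et, ep]
    have e0 := c4 0
    have e1 := c4 1
    have e2 := c4 2
    have e3 := c4 3
    simp only [Fin.sum_univ_four] at c0 c1 c2 e0 e1 e2 e3 c5
    field_simp at c0
    have G : s x * ∑ b, ep b * Z b * (s x * pd k (Φ b) x) = 0 := by
      simp only [Z, Fin.sum_univ_four]
      linear_combination c0 + pd i s x * c1 + pd j s x * c2 - et i j * (ep 0 * pd 0 s x * e0
        + ep 1 * pd 1 s x * e1 + ep 2 * pd 2 s x * e2 + ep 3 * pd 3 s x * e3) - et i j * c5
    exact (mul_eq_zero.mp G).resolve_left hs.ne'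
  have hZ2 : ∀ b, Z b = 0 := by
    intro b
    have t : ∀ a, ∑ k, ep k * (s x * pd k (Φ b) x) * (s x * pd k (Φ a) x) = et b a :=
      fun a => h.conf' hx b a
    have e : ∑ k, (ep k * (s x * pd k (Φ b) x)) * ∑ a, ep a * Z a * (s x * pd k (Φ a) x)
        = ∑ a, ep a * Z a * ∑ k, ep k * (s x * pd k (Φ b) x) * (s x * pd k (Φ a) x) := by
      simp only [Finset.mul_sum]
      rw [Finset.sum_comm]
      refine Finset.sum_congr rfl fun a _ => Finset.sum_congr rfl fun k _ => ?_
      ring
    simp only [hZ, t, mul_zero, Finset.sum_const_zero] at e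
    have : ∑ a, ep a * Z a * et b a = Z b := by
      fin_cases b <;> simp [et, ep]
    rw [← this, ← e]
  have := hZ2 a
  simp only [Z] at this
  linear_combination this

/-- the antisymmetrised third derivatives. -/
theorem third {x : R4} (hx : x ∈ W) (a i j l : Fin 4) :
    pd j (pd l s) x * pd i (Φ a) x - pd j (pd i s) x * pd l (Φ a) x
      = et i j * pd l (fun y => ∑ k, ep k * pd k s y * pd k (Φ a) y) x
        - et l j * pd i (fun y => ∑ k, ep k * pd k s y * pd k (Φ a) y) x := by
  have hE : ∀ y ∈ W, DifferentiableAt ℝ (fun y => ∑ k, ep k * pd k s y * pd k (Φ a) y) y := by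
    intro y hy
    have D3 : ∀ k, DifferentiableAt ℝ (fun y => ep k * pd k s y * pd k (Φ a) y) y := fun k =>
      ((differentiableAt_const _).fun_mul (h.dps hy k)).fun_mul (h.dpΦ hy a k)
    simp only [Fin.sum_univ_four]
    exact (((D3 0).fun_add (D3 1)).fun_add (D3 2)).fun_add (D3 3)
  have key : ∀ i j l : Fin 4, pd l s x * pd i (pd j (Φ a)) x + s x * pd l (pd i (pd j (Φ a))) x
      = - pd l (pd i s) x * pd j (Φ a) x - pd i s x * pd l (pd j (Φ a)) x
        - pd l (pd j s) x * pd i (Φ a) x - pd j s x * pd l (pd i (Φ a)) x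
        + et i j * pd l (fun y => ∑ k, ep k * pd k s y * pd k (Φ a) y) x := by
    intro i j l
    have e : ∀ y ∈ W, (fun y => s y * pd i (pd j (Φ a)) y) y
        = (fun y => - (pd i s y * pd j (Φ a) y) - pd j s y * pd i (Φ a) y
      + et i j * ∑ k, ep k * pd k s y * pd k (Φ a) y) y := fun y hy => by
        have := h.second hy a i j
        simp only
        linear_combination this
    have e2 := pd_congr h.isOpen e hx l
    have d1 : DifferentiableAt ℝ (fun y => pd i s y * pd j (Φ a) y) x :=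
      (h.dps hx i).fun_mul (h.dpΦ hx a j)
    have d2 : DifferentiableAt ℝ (fun y => pd j s y * pd i (Φ a) y) x :=
      (h.dps hx j).fun_mul (h.dpΦ hx a i)
    rw [pd_mul (h.ds hx) (h.dppΦ hx a i j), pd_add (d1.fun_neg.fun_sub d2)
      ((differentiableAt_const _).fun_mul (hE x hx)), pd_sub d1.fun_neg d2, pd_neg,
      pd_mul (h.dps hx i) (h.dpΦ hx a j), pd_mul (h.dps hx j) (h.dpΦ hx a i),
      pd_mul (differentiableAt_const _) (hE x hx), pd_const] at e2
    linear_combination e2
  have k1 := key i j l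
  have k2 := key l j i
  have c3 : pd l (pd i (pd j (Φ a))) x = pd i (pd l (pd j (Φ a))) x :=
    pd_comm (((h.smpΦ a j).contDiffAt (h.isOpen.mem_nhds hx)).of_le (by norm_num)) l i
  have c1 := h.comms hx l i
  have c2 := h.comms hx l j
  have c4 := h.comms hx i j
  have c5 := h.commΦ hx a l i
  rw [c3] at k1
  rw [c1, c2, c5] at k1
  rw [c4] at k2
  linear_combination k1 - k2

/-- the Hessian of the conformal factor is pure trace. -/
theorem hess {x : R4} (hx : x ∈ W) (i j : Fin 4) :
    pd i (pd j s) x = et i j * pd 0 (pd 0 s) x := by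
  have hs := h.pos x hx
  -- contract `third` with `ep a * pd k (Φ a) x`
  let H : Fin 4 → Fin 4 → ℝ := fun l k =>
    ∑ a, ep a * (s x * pd k (Φ a) x)
      * (s x * pd l (fun y => ∑ k, ep k * pd k s y * pd k (Φ a) y) x)
  have key : ∀ i j l k : Fin 4, pd j (pd l s) x * et i k - pd j (pd i s) x * et l k
      = et i j * H l k - et l j * H i k := by
    intro i j l k
    have c1 := h.conf x hx i k
    have c2 := h.conf x hx l k
    have t0 := h.third hx 0 i j l
    have t1 := h.third hx 1 i j l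
    have t2 := h.third hx 2 i j l
    have t3 := h.third hx 3 i j l
    simp only [H]
    rw [Fin.sum_univ_four, Fin.sum_univ_four]
    rw [Fin.sum_univ_four] at c1 c2
    linear_combination - pd j (pd l s) x * c1 + pd j (pd i s) x * c2
      + ep 0 * s x ^ 2 * pd k (Φ 0) x * t0 + ep 1 * s x ^ 2 * pd k (Φ 1) x * t1
      + ep 2 * s x ^ 2 * pd k (Φ 2) x * t2 + ep 3 * s x ^ 2 * pd k (Φ 3) x * t3
  have off : ∀ i j l : Fin 4, i ≠ j → i ≠ l → j ≠ l → pd j (pd l s) x = 0 := by
    intro i j l hij hil hjl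
    have := key i j l i
    have e1 : et l i = 0 := by simp [et, hil.symm]
    have e2 : et i j = 0 := by simp [et, hij]
    have e3 : et l j = 0 := by simp [et, hjl.symm]
    have e4 : et i i = ep i := by simp [et]
    rw [e1, e2, e3, e4] at this
    have h5 : ep i ≠ 0 := by
      intro h0
      have := ep_sq i
      rw [h0] at this
      norm_num at this
    have h6 : pd j (pd l s) x * ep i = 0 := by linear_combination this
    exact (mul_eq_zero.mp h6).resolve_right h5
  have diag : ∀ i j : Fin 4, i ≠ j → pd j (pd j s) x * ep i = - ep j * H i i := by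
    intro i j hij
    have := key i j j i
    have e1 : et j i = 0 := by simp [et, hij.symm]
    have e2 : et i j = 0 := by simp [et, hij]
    have e3 : et j j = ep j := by simp [et]
    have e4 : et i i = ep i := by simp [et]
    rw [e1, e2, e3, e4] at this
    linear_combination this
  have d02 := diag 2 0 (by decide)
  have d12 := diag 2 1 (by decide)
  have d01 := diag 1 0 (by decide)
  have d21 := diag 1 2 (by decide)
  have d31 := diag 1 3 (by decide)
  simp only [ep, Matrix.cons_val] at d02 d12 d01 d21 d31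
  fin_cases i <;> fin_cases j <;> simp only [et, ep] <;> simp
  · exact off 2 0 1 (by decide) (by decide) (by decide)
  · exact off 1 0 2 (by decide) (by decide) (by decide)
  · exact off 1 0 3 (by decide) (by decide) (by decide)
  · exact off 2 1 0 (by decide) (by decide) (by decide)
  · linarith
  · exact off 0 1 2 (by decide) (by decide) (by decide)
  · exact off 0 1 3 (by decide) (by decide) (by decide)
  · exact off 1 2 0 (by decide) (by decide) (by decide)
  · exact off 0 2 1 (by decide) (by decide) (by decide)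
  · linarith
  · exact off 0 2 3 (by decide) (by decide) (by decide)
  · exact off 1 3 0 (by decide) (by decide) (by decide)
  · exact off 0 3 1 (by decide) (by decide) (by decide)
  · exact off 0 3 2 (by decide) (by decide) (by decide)
  · linarith

/-- the common second derivative of the conformal factor is locally constant. -/
theorem hess_const {x : R4} (hx : x ∈ W) (i : Fin 4) : pd i (pd 0 (pd 0 s)) x = 0 := by
  have off : ∀ i j : Fin 4, i ≠ j → ∀ y ∈ W, pd i (pd j s) y = (fun _ => (0:ℝ)) y := by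
    intro i j hij y hy
    rw [h.hess hy i j]
    simp [et, hij]
  by_cases hi : i = 0
  · subst hi
    -- use the index `1`: `pd 0 (pd 0 s) = - pd 1 (pd 1 s)`
    have e : ∀ y ∈ W, pd 0 (pd 0 s) y = (fun y => - pd 1 (pd 1 s) y) y := by
      intro y hy
      have := h.hess hy 1 1
      simp [et, ep] at this
      simp [this]
    rw [pd_congr h.isOpen e hx 0, pd_neg]
    have c : pd 0 (pd 1 (pd 1 s)) x = pd 1 (pd 0 (pd 1 s)) x :=
      pd_comm (((h.smps 1).contDiffAt (h.isOpen.mem_nhds hx)).of_le (by norm_num)) 0 1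
    rw [c, pd_congr h.isOpen (off 0 1 (by decide)) hx 1, pd_const, neg_zero]
  · have c : pd i (pd 0 (pd 0 s)) x = pd 0 (pd i (pd 0 s)) x :=
      pd_comm (((h.smps 0).contDiffAt (h.isOpen.mem_nhds hx)).of_le (by norm_num)) i 0
    rw [c, pd_congr h.isOpen (off i 0 hi) hx 0, pd_const]

end Conf

end Pool.Agent.Q233.SV
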