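import Pool.Agent.Q233.SV.B

/-!
# The Siemieniec-Oziebło side: pointwise algebra and the final contradiction
-/

namespace Pool.Agent.Q233.SV

open Real Set Filter Topology
open scoped ContDiff

/-- `f` is differentiable at `x` with partial derivatives `v`. -/
structure HP (f : R4 → ℝ) (x : R4) (v : Fin 4 → ℝ) : Prop where
  d : DifferentiableAt ℝ f x
  e : ∀ i, pd i f x = v i

namespace HP

variable {f g : R4 → ℝ} {x : R4} {v w : Fin 4 → ℝ}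

theorem add (hf : HP f x v) (hg : HP g x w) : HP (fun y => f y + g y) x (fun i => v i + w i) :=
  ⟨hf.d.fun_add hg.d, fun i => by rw [pd_add hf.d hg.d, hf.e, hg.e]⟩

theorem sub (hf : HP f x v) (hg : HP g x w) : HP (fun y => f y - g y) x (fun i => v i - w i) :=
  ⟨hf.d.fun_sub hg.d, fun i => by rw [pd_sub hf.d hg.d, hf.e, hg.e]⟩

theorem neg (hf : HP f x v) : HP (fun y => - f y) x (fun i => - v i) :=
  ⟨hf.d.fun_neg, fun i => by rw [pd_neg, hf.e]⟩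

theorem mul (hf : HP f x v) (hg : HP g x w) :
    HP (fun y => f y * g y) x (fun i => f x * w i + g x * v i) :=
  ⟨hf.d.fun_mul hg.d, fun i => by rw [pd_mul hf.d hg.d, hf.e, hg.e]⟩

theorem const (c : ℝ) (x : R4) : HP (fun _ => c) x (fun _ => 0) :=
  ⟨differentiableAt_const _, fun i => pd_const c x i⟩

theorem coord (j : Fin 4) (x : R4) : HP (fun y => y j) x (fun i => if j = i then 1 else 0) :=
  ⟨(ContinuousLinearMap.proj (R := ℝ) (φ := fun _ : Fin 4 => ℝ) j).differentiableAt,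
    fun i => pd_coord j x i⟩

theorem comp {G : ℝ → ℝ} {G' : ℝ} (hG : HasDerivAt G G' (f x)) (hf : HP f x v) :
    HP (fun y => G (f y)) x (fun i => G' * v i) :=
  ⟨hG.differentiableAt.comp x hf.d, fun i => by rw [pd_comp hG hf.d, hf.e]⟩

theorem of_diff (h : DifferentiableAt ℝ f x) : HP f x (fun i => pd i f x) := ⟨h, fun _ => rfl⟩

theorem of_eq (hf : HP f x v) (h : ∀ i, v i = w i) : HP f x w := ⟨hf.d, fun i => by rw [hf.e, h]⟩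

theorem congrOn {W : Set R4} (hW : IsOpen W) (hx : x ∈ W) (h : ∀ y ∈ W, f y = g y)
    (hf : HP f x v) (hg : HP g x w) (i : Fin 4) : v i = w i := by
  rw [← hf.e, ← hg.e]
  exact pd_congr hW h hx i

end HP

/-- `μ = ½ d(a t² + b |x|²)`. -/
noncomputable def mu (a b : ℝ) (x : R4) (i : Fin 4) : ℝ := if i = 0 then a * x 0 else b * x i

/-- `a t² + b |x|²`. -/
noncomputable def qq (a b : ℝ) (x : R4) : ℝ := a * x 0 ^ 2 + b * (x 1 ^ 2 + x 2 ^ 2 + x 3 ^ 2)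

theorem sq3 {p q r : ℝ} (h : 0 = p ^ 2 + q ^ 2 + r ^ 2) : p = 0 ∧ q = 0 ∧ r = 0 := by
  have hp := sq_nonneg p
  have hq := sq_nonneg q
  have hr := sq_nonneg r
  exact ⟨pow_eq_zero_iff (two_ne_zero) |>.mp (by linarith),
    pow_eq_zero_iff (two_ne_zero) |>.mp (by linarith),
    pow_eq_zero_iff (two_ne_zero) |>.mp (by linarith)⟩

/-- two by two elimination. -/
theorem elim2 {A Γ a1 b1 a2 b2 : ℝ} (h1 : A * a1 + Γ * b1 = 0) (h2 : A * a2 + Γ * b2 = 0)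
    (hω : a1 * b2 - a2 * b1 ≠ 0) : A = 0 ∧ Γ = 0 := by
  have e1 : A * (a1 * b2 - a2 * b1) = 0 := by linear_combination b2 * h1 - b1 * h2
  have e2 : Γ * (a1 * b2 - a2 * b1) = 0 := by linear_combination a1 * h2 - a2 * h1
  exact ⟨(mul_eq_zero.mp e1).resolve_right hω, (mul_eq_zero.mp e2).resolve_right hω⟩

/-- first step: there is no multiple of the metric. -/
theorem algC {x1 x2 x3 t0 t1 t2 t3 n0 n1 n2 n3 A Γ C b u : ℝ}
    (hR : 0 < x1 ^ 2 + x2 ^ 2)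
    (h01 : u * x1 = A * t0 * t1 + Γ * n0 * n1)
    (h02 : u * x2 = A * t0 * t2 + Γ * n0 * n2)
    (h03 : u * x3 = A * t0 * t3 + Γ * n0 * n3)
    (h11 : b * x1 * x1 = A * t1 * t1 + Γ * n1 * n1 - C)
    (h12 : b * x1 * x2 = A * t1 * t2 + Γ * n1 * n2)
    (h13 : b * x1 * x3 = A * t1 * t3 + Γ * n1 * n3)
    (h22 : b * x2 * x2 = A * t2 * t2 + Γ * n2 * n2 - C)
    (h23 : b * x2 * x3 = A * t2 * t3 + Γ * n2 * n3)
    (h33 : b * x3 * x3 = A * t3 * t3 + Γ * n3 * n3 - C)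
    (hn : n0 ^ 2 = n1 ^ 2 + n2 ^ 2 + n3 ^ 2) : C = 0 := by
  by_contra hC
  obtain ⟨a1, ha1⟩ : ∃ a1, a1 = t2 * x1 - t1 * x2 := ⟨_, rfl⟩
  obtain ⟨b1, hb1⟩ : ∃ b1, b1 = n2 * x1 - n1 * x2 := ⟨_, rfl⟩
  obtain ⟨a2, ha2⟩ : ∃ a2, a2 = (x1 ^ 2 + x2 ^ 2) * t3 - x3 * (x1 * t1 + x2 * t2) := ⟨_, rfl⟩
  obtain ⟨b2, hb2⟩ : ∃ b2, b2 = (x1 ^ 2 + x2 ^ 2) * n3 - x3 * (x1 * n1 + x2 * n2) := ⟨_, rfl⟩
  have y11 : A * a1 * a1 + Γ * b1 * b1 = C * (x1 ^ 2 + x2 ^ 2) := by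
    rw [ha1, hb1]
    linear_combination - (x1 ^ 2) * h22 + 2 * x1 * x2 * h12 - x2 ^ 2 * h11
  have y22 : A * a2 * a2 + Γ * b2 * b2
      = C * ((x1 ^ 2 + x2 ^ 2) * (x1 ^ 2 + x2 ^ 2 + x3 ^ 2)) := by
    rw [ha2, hb2]
    linear_combination - (x1 ^ 2 + x2 ^ 2) ^ 2 * h33
      + 2 * (x1 ^ 2 + x2 ^ 2) * x3 * (x1 * h13 + x2 * h23)
      - x3 ^ 2 * (x1 ^ 2 * h11 + 2 * x1 * x2 * h12 + x2 ^ 2 * h22)
  have y12 : A * a1 * a2 + Γ * b1 * b2 = 0 := by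
    rw [ha1, hb1, ha2, hb2]
    linear_combination - (x1 ^ 2 + x2 ^ 2) * (x1 * h23 - x2 * h13)
      + x3 * (x1 ^ 2 * h12 + x1 * x2 * h22 - x1 * x2 * h11 - x2 ^ 2 * h12)
  have y01 : (A * t0) * a1 + (Γ * n0) * b1 = 0 := by
    rw [ha1, hb1]
    linear_combination - x1 * h02 + x2 * h01
  have y02 : (A * t0) * a2 + (Γ * n0) * b2 = 0 := by
    rw [ha2, hb2]
    linear_combination - (x1 ^ 2 + x2 ^ 2) * h03 + x3 * (x1 * h01 + x2 * h02)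
  have hr2p : 0 < x1 ^ 2 + x2 ^ 2 + x3 ^ 2 := by positivity
  obtain ⟨R, hRd⟩ : ∃ R, R = x1 ^ 2 + x2 ^ 2 := ⟨_, rfl⟩
  obtain ⟨r2, hrd⟩ : ∃ r2, r2 = x1 ^ 2 + x2 ^ 2 + x3 ^ 2 := ⟨_, rfl⟩
  rw [← hrd, ← hRd] at y22
  rw [← hRd] at y11 hR
  rw [← hrd] at hr2p
  have hdet : A * Γ * (a1 * b2 - a2 * b1) ^ 2 = C ^ 2 * R ^ 2 * r2 := by
    linear_combination (A * a2 * a2 + Γ * b2 * b2) * y11 + C * R * y22
      - (A * a1 * a2 + Γ * b1 * b2) * y12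
  have hne : A * Γ * (a1 * b2 - a2 * b1) ^ 2 ≠ 0 := by
    rw [hdet]; positivity
  have hΓ : Γ ≠ 0 := by rintro rfl; simp at hne
  have hω : a1 * b2 - a2 * b1 ≠ 0 := by
    intro h0; rw [h0] at hne; simp at hne
  have hn0 : n0 = 0 := (mul_eq_zero.mp (elim2 y01 y02 hω).2).resolve_left hΓ
  rw [hn0] at hn
  obtain ⟨e1, e2, e3⟩ := sq3 (p := n1) (q := n2) (r := n3) (by linear_combination hn)
  apply hω
  rw [hb2, hb1, e1, e2, e3]
  ring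

/-- second step: the covectors are radial. -/
theorem algR {x0 x1 x2 x3 t0 t1 t2 t3 n0 n1 n2 n3 A Γ a b q : ℝ} (hb : b ≠ 0)
    (hab : a + b ≠ 0) (hq : q ≠ 0) (hR : 0 < x1 ^ 2 + x2 ^ 2)
    (h00 : 3 * a ^ 2 * x0 ^ 2 - (a + b) * q = A * t0 * t0 + Γ * n0 * n0)
    (h01 : 3 * a * b * x0 * x1 = A * t0 * t1 + Γ * n0 * n1)
    (h02 : 3 * a * b * x0 * x2 = A * t0 * t2 + Γ * n0 * n2)
    (h03 : 3 * a * b * x0 * x3 = A * t0 * t3 + Γ * n0 * n3)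
    (h11 : 3 * b ^ 2 * x1 * x1 = A * t1 * t1 + Γ * n1 * n1)
    (h12 : 3 * b ^ 2 * x1 * x2 = A * t1 * t2 + Γ * n1 * n2)
    (h13 : 3 * b ^ 2 * x1 * x3 = A * t1 * t3 + Γ * n1 * n3)
    (h22 : 3 * b ^ 2 * x2 * x2 = A * t2 * t2 + Γ * n2 * n2)
    (h23 : 3 * b ^ 2 * x2 * x3 = A * t2 * t3 + Γ * n2 * n3)
    (h33 : 3 * b ^ 2 * x3 * x3 = A * t3 * t3 + Γ * n3 * n3) :
    (t2 * x1 - t1 * x2 = 0 ∧ (x1 ^ 2 + x2 ^ 2) * t3 - x3 * (x1 * t1 + x2 * t2) = 0) ∧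
    (n2 * x1 - n1 * x2 = 0 ∧ (x1 ^ 2 + x2 ^ 2) * n3 - x3 * (x1 * n1 + x2 * n2) = 0) := by
  obtain ⟨a1, ha1⟩ : ∃ a1, a1 = t2 * x1 - t1 * x2 := ⟨_, rfl⟩
  obtain ⟨b1, hb1⟩ : ∃ b1, b1 = n2 * x1 - n1 * x2 := ⟨_, rfl⟩
  obtain ⟨a2, ha2⟩ : ∃ a2, a2 = (x1 ^ 2 + x2 ^ 2) * t3 - x3 * (x1 * t1 + x2 * t2) := ⟨_, rfl⟩
  obtain ⟨b2, hb2⟩ : ∃ b2, b2 = (x1 ^ 2 + x2 ^ 2) * n3 - x3 * (x1 * n1 + x2 * n2) := ⟨_, rfl⟩
  obtain ⟨a3, ha3⟩ : ∃ a3, a3 = x1 * t1 + x2 * t2 + x3 * t3 := ⟨_, rfl⟩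
  obtain ⟨b3, hb3⟩ : ∃ b3, b3 = x1 * n1 + x2 * n2 + x3 * n3 := ⟨_, rfl⟩
  have y01 : (A * a1) * t0 + (Γ * b1) * n0 = 0 := by
    rw [ha1, hb1]
    linear_combination - x1 * h02 + x2 * h01
  have y02 : (A * a2) * t0 + (Γ * b2) * n0 = 0 := by
    rw [ha2, hb2]
    linear_combination - (x1 ^ 2 + x2 ^ 2) * h03 + x3 * (x1 * h01 + x2 * h02)
  have w03 : A * t0 * a3 + Γ * n0 * b3 = 3 * a * b * x0 * (x1 ^ 2 + x2 ^ 2 + x3 ^ 2) := by
    rw [ha3, hb3]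
    linear_combination - x1 * h01 - x2 * h02 - x3 * h03
  have w33 : A * a3 * a3 + Γ * b3 * b3 = 3 * b ^ 2 * (x1 ^ 2 + x2 ^ 2 + x3 ^ 2) ^ 2 := by
    rw [ha3, hb3]
    linear_combination - x1 ^ 2 * h11 - x2 ^ 2 * h22 - x3 ^ 2 * h33 - 2 * x1 * x2 * h12
      - 2 * x1 * x3 * h13 - 2 * x2 * x3 * h23
  have w13 : (A * a1) * a3 + (Γ * b1) * b3 = 0 := by
    rw [ha3, hb3, ha1, hb1]
    linear_combination - x1 * (x1 * h12 + x2 * h22 + x3 * h23)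
      + x2 * (x1 * h11 + x2 * h12 + x3 * h13)
  have w23 : (A * a2) * a3 + (Γ * b2) * b3 = 0 := by
    rw [ha3, hb3, ha2, hb2]
    linear_combination - (x1 ^ 2 + x2 ^ 2) * (x1 * h13 + x2 * h23 + x3 * h33)
      + x3 * x1 * (x1 * h11 + x2 * h12 + x3 * h13) + x3 * x2 * (x1 * h12 + x2 * h22 + x3 * h23)
  have hr2p : 0 < x1 ^ 2 + x2 ^ 2 + x3 ^ 2 := by positivity
  have hdet : A * Γ * (t0 * b3 - a3 * n0) ^ 2
      = - 3 * (a + b) * q * b ^ 2 * (x1 ^ 2 + x2 ^ 2 + x3 ^ 2) ^ 2 := by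
    linear_combination - (A * a3 * a3 + Γ * b3 * b3) * h00
      + (3 * a ^ 2 * x0 ^ 2 - (a + b) * q) * w33
      - (A * t0 * a3 + Γ * n0 * b3 + 3 * a * b * x0 * (x1 ^ 2 + x2 ^ 2 + x3 ^ 2)) * w03
  have hne : A * Γ * (t0 * b3 - a3 * n0) ^ 2 ≠ 0 := by
    rw [hdet]
    have h3 : (-3 : ℝ) ≠ 0 := by norm_num
    exact mul_ne_zero (mul_ne_zero (mul_ne_zero (mul_ne_zero h3 hab) hq) (pow_ne_zero _ hb))
      (pow_ne_zero _ hr2p.ne')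
  have hΓ : Γ ≠ 0 := by rintro rfl; simp at hne
  have hA : A ≠ 0 := by rintro rfl; simp at hne
  have hω : t0 * b3 - a3 * n0 ≠ 0 := by
    intro h0; rw [h0] at hne; simp at hne
  have s1 := elim2 y01 w13 hω
  have s2 := elim2 y02 w23 hω
  rw [← ha1, ← ha2, ← hb1, ← hb2]
  exact ⟨⟨(mul_eq_zero.mp s1.1).resolve_left hA, (mul_eq_zero.mp s2.1).resolve_left hA⟩,
    ⟨(mul_eq_zero.mp s1.2).resolve_left hΓ, (mul_eq_zero.mp s2.2).resolve_left hΓ⟩⟩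

/-- pointwise algebra. -/
theorem alg {a b : ℝ} (hb : b ≠ 0) (hab : a + b ≠ 0) {x : R4} (hq : qq a b x ≠ 0)
    (hR : x 1 ^ 2 + x 2 ^ 2 ≠ 0) {τ n : Fin 4 → ℝ} {A Γ C : ℝ}
    (h : ∀ i j, 3 * mu a b x i * mu a b x j - (a + b) * qq a b x * (if i = 0 then 1 else 0)
      * (if j = 0 then 1 else 0) = A * τ i * τ j + Γ * n i * n j + C * et i j)
    (hn : n 0 ^ 2 = n 1 ^ 2 + n 2 ^ 2 + n 3 ^ 2) :
    (τ 2 * x 1 - τ 1 * x 2 = 0 ∧ (x 1 ^ 2 + x 2 ^ 2) * τ 3 = x 3 * (x 1 * τ 1 + x 2 * τ 2)) ∧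
    (n 2 * x 1 - n 1 * x 2 = 0 ∧ (x 1 ^ 2 + x 2 ^ 2) * n 3 = x 3 * (x 1 * n 1 + x 2 * n 2)) ∧
    C = 0 := by
  have hRp : 0 < x 1 ^ 2 + x 2 ^ 2 := lt_of_le_of_ne (by positivity) (Ne.symm hR)
  have h00 := h 0 0
  have h01 := h 0 1
  have h02 := h 0 2
  have h03 := h 0 3
  have h11 := h 1 1
  have h12 := h 1 2
  have h13 := h 1 3
  have h22 := h 2 2
  have h23 := h 2 3
  have h33 := h 3 3
  simp only [mu, et, ep] at h00 h01 h02 h03 h11 h12 h13 h22 h23 h33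
  simp at h00 h01 h02 h03 h11 h12 h13 h22 h23 h33
  have hC : C = 0 := algC (x1 := x 1) (x2 := x 2) (x3 := x 3) (t0 := τ 0) (t1 := τ 1)
    (t2 := τ 2) (t3 := τ 3) (n0 := n 0) (n1 := n 1) (n2 := n 2) (n3 := n 3) (A := A) (Γ := Γ)
    (C := C) (b := 3 * b ^ 2) (u := 3 * a * b * x 0) hRp
    (by linear_combination h01) (by linear_combination h02) (by linear_combination h03)
    (by linear_combination h11) (by linear_combination h12) (by linear_combination h13)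
    (by linear_combination h22) (by linear_combination h23) (by linear_combination h33) hn
  subst hC
  obtain ⟨⟨r1, r2⟩, ⟨r3, r4⟩⟩ := algR (x0 := x 0) (x1 := x 1) (x2 := x 2) (x3 := x 3)
    (t0 := τ 0) (t1 := τ 1) (t2 := τ 2) (t3 := τ 3) (n0 := n 0) (n1 := n 1) (n2 := n 2)
    (n3 := n 3) (A := A) (Γ := Γ) (a := a) (b := b) (q := qq a b x) hb hab hq hRp
    (by linear_combination h00)
    (by linear_combination h01) (by linear_combination h02) (by linear_combination h03)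
    (by linear_combination h11) (by linear_combination h12) (by linear_combination h13)
    (by linear_combination h22) (by linear_combination h23) (by linear_combination h33)
  exact ⟨⟨r1, by linear_combination r2⟩, ⟨r3, by linear_combination r4⟩, rfl⟩

/-- the scalar identity produced by the pointwise algebra. -/
theorem alg2 {a b : ℝ} (hb : b ≠ 0) (hab : a + b ≠ 0) {x : R4} (hq : qq a b x ≠ 0)
    (hR : x 1 ^ 2 + x 2 ^ 2 ≠ 0) {τ n : Fin 4 → ℝ} {A Γ C β s : ℝ} {ds : Fin 4 → ℝ}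
    (h : ∀ i j, 3 * mu a b x i * mu a b x j - (a + b) * qq a b x * (if i = 0 then 1 else 0)
      * (if j = 0 then 1 else 0) = A * τ i * τ j + Γ * n i * n j + C * et i j)
    (hn : n 0 ^ 2 = n 1 ^ 2 + n 2 ^ 2 + n 3 ^ 2)
    (hK : ∀ i, s * mu a b x i + qq a b x * ds i = β * τ i) :
    (ds 2 * x 1 - ds 1 * x 2 = 0 ∧
      (x 1 ^ 2 + x 2 ^ 2) * ds 3 = x 3 * (x 1 * ds 1 + x 2 * ds 2)) ∧
    ∀ c, ds 1 = - c * x 1 → ds 2 = - c * x 2 → ds 3 = - c * x 3 →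
      ((a + b) * b * s + 3 * a * b * x 0 * ds 0 + c * (3 * a ^ 2 * x 0 ^ 2
        - (a + b) * (a * x 0 ^ 2 + b * (x 1 ^ 2 + x 2 ^ 2 + x 3 ^ 2)))) ^ 2
      = (x 1 ^ 2 + x 2 ^ 2 + x 3 ^ 2) * (3 * b * (b * ds 0 + a * c * x 0)) ^ 2 := by
  obtain ⟨⟨ht1, ht2⟩, ⟨hn1, hn2⟩, hC⟩ := alg hb hab hq hR h hn
  have k0 := hK 0
  have k1 := hK 1
  have k2 := hK 2
  have k3 := hK 3
  have m0 : mu a b x 0 = a * x 0 := by simp [mu]
  have m1 : mu a b x 1 = b * x 1 := by simp [mu]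
  have m2 : mu a b x 2 = b * x 2 := by simp [mu]
  have m3 : mu a b x 3 = b * x 3 := by simp [mu]
  rw [m0] at k0
  rw [m1] at k1
  rw [m2] at k2
  rw [m3] at k3
  refine ⟨⟨?_, ?_⟩, ?_⟩
  · have : qq a b x * (ds 2 * x 1 - ds 1 * x 2) = 0 := by
      linear_combination x 1 * k2 - x 2 * k1 + β * ht1
    exact (mul_eq_zero.mp this).resolve_left hq
  · have : qq a b x * ((x 1 ^ 2 + x 2 ^ 2) * ds 3 - x 3 * (x 1 * ds 1 + x 2 * ds 2)) = 0 := by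
      linear_combination (x 1 ^ 2 + x 2 ^ 2) * k3 - x 3 * x 1 * k1 - x 3 * x 2 * k2 + β * ht2
    have := (mul_eq_zero.mp this).resolve_left hq
    linear_combination this
  · intro c h1 h2 h3
    rw [h1] at k1
    rw [h2] at k2
    rw [h3] at k3
    have hq' : qq a b x = a * x 0 ^ 2 + b * (x 1 ^ 2 + x 2 ^ 2 + x 3 ^ 2) := rfl
    set q := qq a b x with hqdef
    set r2 := x 1 ^ 2 + x 2 ^ 2 + x 3 ^ 2 with hr2
    have hRp : 0 < x 1 ^ 2 + x 2 ^ 2 := lt_of_le_of_ne (by positivity) (Ne.symm hR)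
    have hr2p : 0 < r2 := by rw [hr2]; nlinarith [sq_nonneg (x 3)]
    set b3 := x 1 * n 1 + x 2 * n 2 + x 3 * n 3 with hb3
    set a3 := x 1 * τ 1 + x 2 * τ 2 + x 3 * τ 3 with ha3
    have hnul : b3 ^ 2 = r2 * n 0 ^ 2 := by
      -- Lagrange identity
      have e1 : (x 1 ^ 2 + x 2 ^ 2) * (n 1 * x 3 - n 3 * x 1) = 0 := by
        linear_combination - x 1 * hn2 - x 3 * x 2 * hn1
      have e2 : (x 1 ^ 2 + x 2 ^ 2) * (n 2 * x 3 - n 3 * x 2) = 0 := by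
        linear_combination - x 2 * hn2 + x 3 * x 1 * hn1
      have e1' := (mul_eq_zero.mp e1).resolve_left hR
      have e2' := (mul_eq_zero.mp e2).resolve_left hR
      rw [hn, hb3, hr2]
      linear_combination - (n 1 * x 3 - n 3 * x 1) * e1' - (n 2 * x 3 - n 3 * x 2) * e2'
        - (n 2 * x 1 - n 1 * x 2) * hn1
    have h00 := h 0 0
    have h01 := h 0 1
    have h02 := h 0 2
    have h03 := h 0 3
    have h11 := h 1 1
    have h12 := h 1 2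
    have h13 := h 1 3
    have h22 := h 2 2
    have h23 := h 2 3
    have h33 := h 3 3
    rw [hC] at h00 h01 h02 h03 h11 h12 h13 h22 h23 h33
    simp only [m0, m1, m2, m3] at h00 h01 h02 h03 h11 h12 h13 h22 h23 h33
    simp at h00 h01 h02 h03 h11 h12 h13 h22 h23 h33
    have w00 : A * τ 0 * τ 0 + Γ * n 0 * n 0 = 3 * a ^ 2 * x 0 ^ 2 - (a + b) * q := by
      linear_combination - h00
    have w03 : A * τ 0 * a3 + Γ * n 0 * b3 = 3 * a * b * x 0 * r2 := by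
      rw [ha3, hb3, hr2]
      linear_combination - x 1 * h01 - x 2 * h02 - x 3 * h03
    have w33 : A * a3 * a3 + Γ * b3 * b3 = 3 * b ^ 2 * r2 ^ 2 := by
      rw [ha3, hb3, hr2]
      linear_combination - x 1 ^ 2 * h11 - x 2 ^ 2 * h22 - x 3 ^ 2 * h33 - 2 * x 1 * x 2 * h12
        - 2 * x 1 * x 3 * h13 - 2 * x 2 * x 3 * h23
    have hK1 : r2 * (b * s - c * q) = β * a3 := by
      rw [ha3, hr2]
      linear_combination x 1 * k1 + x 2 * k2 + x 3 * k3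
    have hK0 : s * (a * x 0) + q * ds 0 = β * τ 0 := k0
    -- the two expressions
    have f1 : (3 * a * b * x 0 * r2) * (s * (a * x 0) + q * ds 0)
        - (3 * a ^ 2 * x 0 ^ 2 - (a + b) * q) * (r2 * (b * s - c * q))
        = β * Γ * n 0 * (b3 * τ 0 - n 0 * a3) := by
      rw [hK0, hK1, ← w00, ← w03]; ring
    have f2 : (3 * b ^ 2 * r2 ^ 2) * (s * (a * x 0) + q * ds 0)
        - (3 * a * b * x 0 * r2) * (r2 * (b * s - c * q))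
        = β * Γ * b3 * (b3 * τ 0 - n 0 * a3) := by
      rw [hK0, hK1, ← w33, ← w03]; ring
    have f3 : r2 * (β * Γ * n 0 * (b3 * τ 0 - n 0 * a3)) ^ 2
        = (β * Γ * b3 * (b3 * τ 0 - n 0 * a3)) ^ 2 := by
      linear_combination - (β * Γ * (b3 * τ 0 - n 0 * a3)) ^ 2 * hnul
    rw [← f1, ← f2] at f3
    have f4 : (r2 ^ 3 * q ^ 2) * (((a + b) * b * s + 3 * a * b * x 0 * ds 0
        + c * (3 * a ^ 2 * x 0 ^ 2 - (a + b) * q)) ^ 2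
        - r2 * (3 * b * (b * ds 0 + a * c * x 0)) ^ 2) = 0 := by
      linear_combination f3
    have hne : r2 ^ 3 * q ^ 2 ≠ 0 := mul_ne_zero (pow_ne_zero _ hr2p.ne') (pow_ne_zero _ hq)
    have f5 := (mul_eq_zero.mp f4).resolve_left hne
    rw [← hq']
    linear_combination f5

end Pool.Agent.Q233.SV
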