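import Pool.Agent.Q233.SV.C

/-!
# The final contradiction on Minkowski space
-/

namespace Pool.Agent.Q233.SV

open Real Set Filter Topology
open scoped ContDiff

theorem hp_qq (a b : ℝ) (x : R4) : HP (qq a b) x (fun i => 2 * mu a b x i) := by
  have h := ((HP.const a x).mul ((HP.coord 0 x).mul (HP.coord 0 x))).add
    ((HP.const b x).mul ((((HP.coord 1 x).mul (HP.coord 1 x)).add
      ((HP.coord 2 x).mul (HP.coord 2 x))).add ((HP.coord 3 x).mul (HP.coord 3 x))))
  have e : (fun y : R4 => a * (y 0 * y 0) + b * (y 1 * y 1 + y 2 * y 2 + y 3 * y 3)) = qq a b := by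
    funext y
    simp only [qq]
    ring
  rw [e] at h
  refine h.of_eq fun i => ?_
  fin_cases i <;> simp [mu] <;> ring

theorem hp_mu (a b : ℝ) (x : R4) (j : Fin 4) : HP (fun y => mu a b y j) x
    (fun i => (a + b) * (if i = 0 then 1 else 0) * (if j = 0 then 1 else 0) - b * et i j) := by
  have h0 := ((HP.const a x).mul (HP.coord 0 x))
  have h1 := ((HP.const b x).mul (HP.coord j x))
  by_cases hj : j = 0
  · subst hj
    have e : (fun y : R4 => a * y 0) = fun y => mu a b y 0 := by funext y; simp [mu]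
    rw [e] at h0
    refine h0.of_eq fun i => ?_
    fin_cases i <;> simp [et, ep]
  · have e : (fun y : R4 => b * y j) = fun y => mu a b y j := by funext y; simp [mu, hj]
    rw [e] at h1
    refine h1.of_eq fun i => ?_
    fin_cases i <;> fin_cases j <;> simp [et, ep] at hj ⊢

/-- the function `q^{-1/2}`. -/
noncomputable def w2 (a b : ℝ) (x : R4) : ℝ := exp (-(log (qq a b x)) / 2)

theorem hp_w2 {a b : ℝ} {x : R4} (hq : 0 < qq a b x) :
    HP (w2 a b) x (fun i => - (w2 a b x * mu a b x i / qq a b x)) := by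
  have hG : HasDerivAt (fun u : ℝ => exp (-(log u) / 2))
      (exp (-(log (qq a b x)) / 2) * (-((qq a b x)⁻¹) / 2)) (qq a b x) :=
    (((Real.hasDerivAt_log hq.ne').neg).div_const 2).exp
  refine (HP.comp hG (hp_qq a b x)).of_eq fun i => ?_
  simp only [w2]
  field_simp

/-- first and second derivatives of `q^{-1/2} = w s`. -/
theorem ptw {W : Set R4} {Φ : Fin 4 → R4 → ℝ} {s : R4 → ℝ} (h : Conf W Φ s)
    {a b : ℝ} (hq : ∀ x ∈ W, 0 < qq a b x)
    {w : R4 → ℝ} (hw : ContDiffOn ℝ 2 w W) (hws : ∀ x ∈ W, w2 a b x = w x * s x)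
    {x : R4} (hx : x ∈ W) {τ n : Fin 4 → ℝ} {A Γ C β : ℝ}
    (h1 : ∀ i j, s x * pd i (pd j w) x + pd i s x * pd j w x + pd j s x * pd i w x
        = A * τ i * τ j + Γ * n i * n j + C * et i j)
    (h3 : ∀ i, pd i w x = β * τ i) :
    (∃ A' Γ' C' : ℝ, ∀ i j, 3 * mu a b x i * mu a b x j
      - (a + b) * qq a b x * (if i = 0 then 1 else 0) * (if j = 0 then 1 else 0)
      = A' * τ i * τ j + Γ' * n i * n j + C' * et i j) ∧
    ∃ β' : ℝ, ∀ i, s x * mu a b x i + qq a b x * pd i s x = β' * τ i := by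
  have hW := h.isOpen
  have dw : ∀ x ∈ W, DifferentiableAt ℝ w x := fun x hx =>
    (hw.contDiffAt (hW.mem_nhds hx)).differentiableAt (by norm_num)
  have dpw : ∀ x ∈ W, ∀ i, DifferentiableAt ℝ (pd i w) x := fun x hx i =>
    ((pd_contDiffOn (m := 1) hW hw (by norm_num) i).contDiffAt
      (hW.mem_nhds hx)).differentiableAt (by norm_num)
  -- first derivatives
  have f1 : ∀ x ∈ W, ∀ i, - (w2 a b x * mu a b x i / qq a b x)
      = w x * pd i s x + s x * pd i w x := fun x hx i =>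
    HP.congrOn hW hx hws (hp_w2 (hq x hx))
      ((HP.of_diff (dw x hx)).mul (HP.of_diff (h.ds hx))) i
  have hqx := hq x hx
  have hsx := h.pos x hx
  have hw2 : w2 a b x ≠ 0 := (exp_pos _).ne'
  have hwx : w x ≠ 0 := by
    intro h0
    apply hw2
    rw [hws x hx, h0, zero_mul]
  refine ⟨⟨qq a b x ^ 2 / w2 a b x * A, qq a b x ^ 2 / w2 a b x * Γ,
    qq a b x ^ 2 / w2 a b x * (C + w x * pd 0 (pd 0 s) x) - qq a b x * b, ?_⟩,
    - (qq a b x * s x * β / w x), ?_⟩
  · intro i j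
    -- second derivatives
    have f2 : w2 a b x * (3 * mu a b x i * mu a b x j
        - qq a b x * ((a + b) * (if i = 0 then 1 else 0) * (if j = 0 then 1 else 0) - b * et i j))
        = qq a b x ^ 2 * (w x * pd i (pd j s) x + pd i w x * pd j s x
        + (s x * pd i (pd j w) x + pd i s x * pd j w x)) := by
      have e : ∀ y ∈ W, - (w2 a b y * mu a b y j)
          = qq a b y * (w y * pd j s y + s y * pd j w y) := by
        intro y hy
        rw [← f1 y hy j]
        have := (hq y hy).ne'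
        field_simp
      have g := HP.congrOn hW hx e (((hp_w2 hqx).mul (hp_mu a b x j)).neg)
        ((hp_qq a b x).mul ((((HP.of_diff (dw x hx)).mul (HP.of_diff (h.dps hx j))).add
          ((HP.of_diff (h.ds hx)).mul (HP.of_diff (dpw x hx j)))))) i
      have g1 := f1 x hx j
      field_simp at g g1
      linear_combination g - 2 * mu a b x i * g1
    have e1 := f2
    have e2 := h1 i j
    have e3 := h.hess hx i j
    rw [e3] at e1
    field_simp
    linear_combination e1 + qq a b x ^ 2 * e2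
  · intro i
    have e1 := f1 x hx i
    have e2 := h3 i
    rw [hws x hx, e2] at e1
    field_simp at e1
    field_simp
    linear_combination - e1

theorem final {W : Set R4} {Φ : Fin 4 → R4 → ℝ} {s : R4 → ℝ} (h : Conf W Φ s)
    (hWne : W.Nonempty) {a b : ℝ} (hb : b ≠ 0) (hab : a + b ≠ 0)
    (hq : ∀ x ∈ W, 0 < qq a b x) (hR : ∀ x ∈ W, x 1 ^ 2 + x 2 ^ 2 ≠ 0)
    {w : R4 → ℝ} (hw : ContDiffOn ℝ 2 w W) (hws : ∀ x ∈ W, w2 a b x = w x * s x)
    (hD : ∀ x ∈ W, ∃ (τ n : Fin 4 → ℝ) (A Γ C β : ℝ),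
      (∀ i j, s x * pd i (pd j w) x + pd i s x * pd j w x + pd j s x * pd i w x
        = A * τ i * τ j + Γ * n i * n j + C * et i j) ∧
      n 0 ^ 2 = n 1 ^ 2 + n 2 ^ 2 + n 3 ^ 2 ∧ ∀ i, pd i w x = β * τ i) : False := by
  have hW := h.isOpen
  -- the pointwise algebra
  have key : ∀ x ∈ W, (pd 2 s x * x 1 - pd 1 s x * x 2 = 0 ∧
      (x 1 ^ 2 + x 2 ^ 2) * pd 3 s x = x 3 * (x 1 * pd 1 s x + x 2 * pd 2 s x)) ∧
    ∀ c, pd 1 s x = - c * x 1 → pd 2 s x = - c * x 2 → pd 3 s x = - c * x 3 →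
      ((a + b) * b * s x + 3 * a * b * x 0 * pd 0 s x + c * (3 * a ^ 2 * x 0 ^ 2
        - (a + b) * (a * x 0 ^ 2 + b * (x 1 ^ 2 + x 2 ^ 2 + x 3 ^ 2)))) ^ 2
      = (x 1 ^ 2 + x 2 ^ 2 + x 3 ^ 2) * (3 * b * (b * pd 0 s x + a * c * x 0)) ^ 2 := by
    intro x hx
    obtain ⟨τ, n, A, Γ, C, β, h1, h2, h3⟩ := hD x hx
    obtain ⟨⟨A', Γ', C', h4⟩, β', h5⟩ := ptw h hq hw hws hx h1 h3
    exact alg2 (ds := fun i => pd i s x) hb hab (hq x hx).ne' (hR x hx) h4 h2 h5
  -- the space derivatives of s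
  have hrad : ∀ x ∈ W, pd 1 s x = - pd 0 (pd 0 s) x * x 1 ∧ pd 2 s x = - pd 0 (pd 0 s) x * x 2
      ∧ pd 3 s x = - pd 0 (pd 0 s) x * x 3 := by
    intro x hx
    have g := HP.congrOn hW hx (fun y hy => (key y hy).1.1)
      (((HP.of_diff (h.dps hx 2)).mul (HP.coord 1 x)).sub
        ((HP.of_diff (h.dps hx 1)).mul (HP.coord 2 x))) (HP.const 0 x)
    have g1 := g 1
    have g2 := g 2
    rw [h.hess hx 1 2, h.hess hx 1 1] at g1
    rw [h.hess hx 2 2, h.hess hx 2 1] at g2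
    simp [et, ep] at g1 g2
    have r1 : pd 1 s x = - pd 0 (pd 0 s) x * x 1 := by linear_combination - g2
    have r2 : pd 2 s x = - pd 0 (pd 0 s) x * x 2 := by linear_combination g1
    refine ⟨r1, r2, ?_⟩
    have r3 := (key x hx).1.2
    rw [r1, r2] at r3
    apply mul_left_cancel₀ (hR x hx)
    linear_combination r3
  have ident : ∀ x ∈ W, ((a + b) * b * s x + 3 * a * b * x 0 * pd 0 s x
      + pd 0 (pd 0 s) x * (3 * a ^ 2 * x 0 ^ 2
        - (a + b) * (a * x 0 ^ 2 + b * (x 1 ^ 2 + x 2 ^ 2 + x 3 ^ 2)))) ^ 2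
      = (x 1 ^ 2 + x 2 ^ 2 + x 3 ^ 2) * (3 * b * (b * pd 0 s x + a * pd 0 (pd 0 s) x * x 0)) ^ 2 :=
    fun x hx => (key x hx).2 _ (hrad x hx).1 (hrad x hx).2.1 (hrad x hx).2.2
  -- differentiate
  have hpU : ∀ x ∈ W, ∃ v, HP (fun x => (a + b) * b * s x + 3 * a * b * x 0 * pd 0 s x
      + pd 0 (pd 0 s) x * (3 * a ^ 2 * x 0 ^ 2
        - (a + b) * (a * x 0 ^ 2 + b * (x 1 ^ 2 + x 2 ^ 2 + x 3 ^ 2)))) x v ∧
        v 1 = - 3 * (a + b) * b * pd 0 (pd 0 s) x * x 1 ∧
        v 2 = - 3 * (a + b) * b * pd 0 (pd 0 s) x * x 2 := by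
    intro x hx
    have c0 := HP.coord 0 x
    have c1 := HP.coord 1 x
    have c2 := HP.coord 2 x
    have c3 := HP.coord 3 x
    have q0 := (HP.const a x).mul (c0.mul c0)
    have q1 := (HP.const b x).mul (((c1.mul c1).add (c2.mul c2)).add (c3.mul c3))
    have q2 := (HP.const (a + b) x).mul (q0.add q1)
    have q3 := ((HP.const (3 * a ^ 2) x).mul (c0.mul c0)).sub q2
    have q4 := (HP.of_diff (h.dpps hx 0 0)).mul q3
    have q5 := ((HP.const (3 * a * b) x).mul c0).mul (HP.of_diff (h.dps hx 0))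
    have q6 := (((HP.const ((a + b) * b) x).mul (HP.of_diff (h.ds hx))).add q5).add q4
    refine ⟨_, by simpa only [pow_two] using q6, ?_, ?_⟩
    · have e1 := h.hess_const hx 1
      have e2 := h.hess hx 1 0
      have e3 := (hrad x hx).1
      simp [et] at e2
      simp only [e1, e2, e3]
      simp
      ring
    · have e1 := h.hess_const hx 2
      have e2 := h.hess hx 2 0
      have e3 := (hrad x hx).2.1
      simp [et] at e2
      simp only [e1, e2, e3]
      simp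
      ring
  have hpV : ∀ x ∈ W, ∃ v, HP (fun x => 3 * b * (b * pd 0 s x + a * pd 0 (pd 0 s) x * x 0)) x v ∧
        v 1 = 0 ∧ v 2 = 0 := by
    intro x hx
    have q1 := ((HP.const b x).mul (HP.of_diff (h.dps hx 0))).add
      (((HP.const a x).mul (HP.of_diff (h.dpps hx 0 0))).mul (HP.coord 0 x))
    have q2 := (HP.const (3 * b) x).mul q1
    refine ⟨_, q2, ?_, ?_⟩
    · have e1 := h.hess_const hx 1
      have e2 := h.hess hx 1 0
      simp [et] at e2
      simp only [e1, e2]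
      simp
    · have e1 := h.hess_const hx 2
      have e2 := h.hess hx 2 0
      simp [et] at e2
      simp only [e1, e2]
      simp
  have ident2 : ∀ x ∈ W, (3 * b * (b * pd 0 s x + a * pd 0 (pd 0 s) x * x 0)) ^ 2
      = - 3 * (a + b) * b * pd 0 (pd 0 s) x * ((a + b) * b * s x + 3 * a * b * x 0 * pd 0 s x
      + pd 0 (pd 0 s) x * (3 * a ^ 2 * x 0 ^ 2
        - (a + b) * (a * x 0 ^ 2 + b * (x 1 ^ 2 + x 2 ^ 2 + x 3 ^ 2)))) := by
    intro x hx
    obtain ⟨u, hu, u1, u2⟩ := hpU x hx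
    obtain ⟨v, hv, v1, v2⟩ := hpV x hx
    have c1 := HP.coord 1 x
    have c2 := HP.coord 2 x
    have c3 := HP.coord 3 x
    have q1 := (((c1.mul c1).add (c2.mul c2)).add (c3.mul c3))
    have g := HP.congrOn hW hx (fun y hy => by
      have := ident y hy
      simpa only [pow_two] using this) (hu.mul hu) (q1.mul (hv.mul hv))
    have g1 := g 1
    have g2 := g 2
    rw [u1, v1] at g1
    rw [u2, v2] at g2
    simp at g1 g2
    have hRx := hR x hx
    have e : (2 * (x 1 ^ 2 + x 2 ^ 2)) * ((3 * b * (b * pd 0 s x + a * pd 0 (pd 0 s) x * x 0)) ^ 2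
      - (- 3 * (a + b) * b * pd 0 (pd 0 s) x * ((a + b) * b * s x + 3 * a * b * x 0 * pd 0 s x
      + pd 0 (pd 0 s) x * (3 * a ^ 2 * x 0 ^ 2
        - (a + b) * (a * x 0 ^ 2 + b * (x 1 ^ 2 + x 2 ^ 2 + x 3 ^ 2)))))) = 0 := by
      linear_combination - x 1 * g1 - x 2 * g2
    have := (mul_eq_zero.mp e).resolve_left (mul_ne_zero two_ne_zero hRx)
    linear_combination this
  -- differentiate once more
  obtain ⟨x, hx⟩ := hWne
  have hc0 : pd 0 (pd 0 s) x = 0 := by
    obtain ⟨u, hu, u1, u2⟩ := hpU x hx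
    obtain ⟨v, hv, v1, v2⟩ := hpV x hx
    have g := HP.congrOn hW hx (fun y hy => by
      have := ident2 y hy
      simpa only [pow_two] using this) (hv.mul hv)
      (((HP.const (- 3 * (a + b) * b) x).mul (HP.of_diff (h.dpps hx 0 0))).mul hu)
    have g1 := g 1
    have g2 := g 2
    have e1 := h.hess_const hx 1
    have e2 := h.hess_const hx 2
    simp only [u1, v1, e1] at g1
    simp only [u2, v2, e2] at g2
    have hRx := hR x hx
    have e : (9 * (a + b) ^ 2 * b ^ 2 * (x 1 ^ 2 + x 2 ^ 2)) * pd 0 (pd 0 s) x ^ 2 = 0 := by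
      linear_combination - x 1 * g1 - x 2 * g2
    have hne : 9 * (a + b) ^ 2 * b ^ 2 * (x 1 ^ 2 + x 2 ^ 2) ≠ 0 := by
      refine mul_ne_zero (mul_ne_zero (mul_ne_zero (by norm_num) (pow_ne_zero _ hab))
        (pow_ne_zero _ hb)) hRx
    exact pow_eq_zero_iff two_ne_zero |>.mp ((mul_eq_zero.mp e).resolve_left hne)
  have i2 := ident2 x hx
  have i1 := ident x hx
  rw [hc0] at i1 i2
  have hσ : pd 0 s x = 0 := by
    have e : 9 * b ^ 4 * pd 0 s x ^ 2 = 0 := by linear_combination i2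
    have hne : 9 * b ^ 4 ≠ 0 := mul_ne_zero (by norm_num) (pow_ne_zero _ hb)
    exact pow_eq_zero_iff two_ne_zero |>.mp ((mul_eq_zero.mp e).resolve_left hne)
  rw [hσ] at i1
  have e : ((a + b) * b) ^ 2 * s x ^ 2 = 0 := by linear_combination i1
  have hne : ((a + b) * b) ^ 2 ≠ 0 := pow_ne_zero _ (mul_ne_zero hab hb)
  have := pow_eq_zero_iff two_ne_zero |>.mp ((mul_eq_zero.mp e).resolve_left hne)
  exact (h.pos x hx).ne' this

end Pool.Agent.Q233.SV
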