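import Mathlib

/-!
# The Siemieniec-Oziebło metric and the first Vaidya–Shah class: definitions

Coordinates on `ℝ⁴` are `(t, r, ϑ, φ) = (p 0, p 1, p 2, p 3)`.  A metric is given by its value
`g p x y` on two tangent vectors `x`, `y` at the point `p`.
-/

namespace Pool.Agent.Q233.SV

open Real Set Filter Topology
open scoped ContDiff

/-- Coordinate space `ℝ⁴`; as the coordinates of a space-time point,
`p 0 = t`, `p 1 = r`, `p 2 = ϑ`, `p 3 = φ`. -/
abbrev R4 := Fin 4 → ℝ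

/-- `dΩ² = dϑ² + sin²ϑ dφ²`, evaluated on the tangent vectors `x`, `y` at the point `p`. -/
noncomputable def sph (p x y : R4) : ℝ := x 2 * y 2 + sin (p 2) ^ 2 * (x 3 * y 3)

/-- The Siemieniec-Oziebło metric `(a t² + b r²) (dt² - dr² - r² dΩ²)`. -/
noncomputable def soMetric (a b : ℝ) (p x y : R4) : ℝ :=
  (a * p 0 ^ 2 + b * p 1 ^ 2) * (x 0 * y 0 - x 1 * y 1 - p 1 ^ 2 * sph p x y)

/-- The set of all points of coordinate space with `a t² + b r² > 0` at which the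
Siemieniec-Oziebło metric is Lorentzian (`r ≠ 0` and `sin ϑ ≠ 0`). -/
def soRegion (a b : ℝ) : Set R4 :=
  {p | 0 < a * p 0 ^ 2 + b * p 1 ^ 2 ∧ p 1 ≠ 0 ∧ sin (p 2) ≠ 0}

/-- Admissible data of the first Vaidya–Shah class: a smooth function `ψ` (on an open set `T`), a
smooth function `P` with a smooth antiderivative `F` (on an open set `I`; for functions on the
whole line take `T = I = ℝ`), and a smooth function `m (t, r)` on a nonempty open set `U` with
`1 + P(m) r > 0`, `∂ᵣ m = (1 + P(m) r)⁻¹`, `∂ₜ m = - e^{-ψ} (1 + P(m) r)⁻¹ e^{F(m)}`. -/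
structure VSData where
  (ψ P F : ℝ → ℝ)
  (T I : Set ℝ)
  (m : ℝ × ℝ → ℝ)
  (U : Set (ℝ × ℝ))
  isOpen_T : IsOpen T
  isOpen_I : IsOpen I
  isOpen_U : IsOpen U
  nonempty_U : U.Nonempty
  smooth_ψ : ContDiffOn ℝ ∞ ψ T
  smooth_P : ContDiffOn ℝ ∞ P I
  smooth_F : ContDiffOn ℝ ∞ F I
  deriv_F : ∀ s ∈ I, HasDerivAt F (P s) s
  smooth_m : ContDiffOn ℝ ∞ m U
  maps_T : ∀ p ∈ U, p.1 ∈ T
  maps_I : ∀ p ∈ U, m p ∈ I
  pos : ∀ p ∈ U, 0 < 1 + P (m p) * p.2
  deriv_r : ∀ p ∈ U, HasDerivAt (fun r => m (p.1, r)) (1 + P (m p) * p.2)⁻¹ p.2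
  deriv_t : ∀ p ∈ U, HasDerivAt (fun t => m (t, p.2))
    (-exp (-ψ p.1) * (1 + P (m p) * p.2)⁻¹ * exp (F (m p))) p.1

namespace VSData

variable (D : VSData)

/-- `r̄ = r e^{(ψ - F(m))/2}`. -/
noncomputable def rbar (p : R4) : ℝ :=
  p 1 * exp ((D.ψ (p 0) - D.F (D.m (p 0, p 1))) / 2)

/-- The factor `1 + P(m) r`. -/
noncomputable def opr (p : R4) : ℝ := 1 + D.P (D.m (p 0, p 1)) * p 1

/-- The metric of the first Vaidya–Shah class,
`(r/r̄)² dt²/(1+Pr) - (r̄/r)² dr²/(1+Pr) - r̄² dΩ²`. -/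
noncomputable def metric (p x y : R4) : ℝ :=
  (p 1 / D.rbar p) ^ 2 * (x 0 * y 0 / D.opr p) - (D.rbar p / p 1) ^ 2 * (x 1 * y 1 / D.opr p)
    - D.rbar p ^ 2 * sph p x y

/-- The set of all points of coordinate space with `(t, r) ∈ U` at which the metric is Lorentzian
(`r ≠ 0` and `sin ϑ ≠ 0`). -/
def region : Set R4 := {p | (p 0, p 1) ∈ D.U ∧ p 1 ≠ 0 ∧ sin (p 2) ≠ 0}

end VSData

/-- The Siemieniec-Oziebło metric with constants `(a, b)` is a subcase of the first Vaidya–Shah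
class: for some admissible data there is a diffeomorphism `e` from a nonempty open piece of the
Siemieniec-Oziebło space-time onto an open piece of the first-class space-time which pulls the
first-class metric back to the Siemieniec-Oziebło metric. -/
def IsSubcase (a b : ℝ) : Prop :=
  ∃ (D : VSData) (e : OpenPartialHomeomorph R4 R4),
    e.source.Nonempty ∧ e.source ⊆ soRegion a b ∧ e.target ⊆ D.region ∧
    ContDiffOn ℝ ∞ e e.source ∧ ContDiffOn ℝ ∞ e.symm e.target ∧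
    ∀ p ∈ e.source, ∀ x y : R4,
      D.metric (e p) (fderiv ℝ e p x) (fderiv ℝ e p y) = soMetric a b p x y

end Pool.Agent.Q233.SV
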