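import Pool.Agent.Q233.SV.D

/-!
# The Vaidya–Shah side: the Hessian of the conformal factor
-/

namespace Pool.Agent.Q233.SV

open Real Set Filter Topology
open scoped ContDiff

/-- the data of the Vaidya–Shah side, pulled back to Minkowski space. -/
structure VSPull (W : Set R4) (Φ : Fin 4 → R4 → ℝ) (s : R4 → ℝ) (F P ψ : ℝ → ℝ)
    (t r m v ρ : R4 → ℝ) : Prop where
  conf : Conf W Φ s
  smt : ContDiffOn ℝ 3 t W
  smψ : ContDiffOn ℝ 2 (fun y => ψ (t y)) W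
  smr : ContDiffOn ℝ 3 r W
  smm : ContDiffOn ℝ 3 m W
  smv : ContDiffOn ℝ 3 v W
  smρ : ContDiffOn ℝ 3 ρ W
  hF : ∀ x ∈ W, HasDerivAt F (P (m x)) (m x)
  hP : ∀ x ∈ W, DifferentiableAt ℝ P (m x)
  hψ : ∀ x ∈ W, DifferentiableAt ℝ ψ (t x)
  hψ' : ∀ x ∈ W, DifferentiableAt ℝ (deriv ψ) (t x)
  Φ0 : ∀ x ∈ W, Φ 0 x = v x - ρ x
  sph : ∀ x ∈ W, Φ 1 x * Φ 1 x + Φ 2 x * Φ 2 x + Φ 3 x * Φ 3 x = ρ x * ρ x
  ρ0 : ∀ x ∈ W, ρ x ≠ 0
  ρr : ∀ x ∈ W, ρ x = r x * exp (-(F (m x)) / 2)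
  dv : ∀ x ∈ W, ∀ i, pd i v x = exp (-(F (m x)) / 2) * pd i m x
  dm : ∀ x ∈ W, ∀ i, (1 + P (m x) * r x) * pd i m x
    = pd i r x - exp (F (m x) - ψ (t x)) * pd i t x

namespace VSPull

variable {W : Set R4} {Φ : Fin 4 → R4 → ℝ} {s : R4 → ℝ} {F P ψ : ℝ → ℝ}
    {t r m v ρ : R4 → ℝ} (h : VSPull W Φ s F P ψ t r m v ρ)

include h

theorem dft {x : R4} (hx : x ∈ W) {f : R4 → ℝ} (hf : ContDiffOn ℝ 3 f W) :
    DifferentiableAt ℝ f x :=
  (hf.contDiffAt (h.conf.isOpen.mem_nhds hx)).differentiableAt (by norm_num)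

theorem dpft {x : R4} (hx : x ∈ W) {f : R4 → ℝ} (hf : ContDiffOn ℝ 3 f W) (i : Fin 4) :
    DifferentiableAt ℝ (pd i f) x :=
  ((pd_contDiffOn (m := 2) h.conf.isOpen hf (by norm_num) i).contDiffAt
    (h.conf.isOpen.mem_nhds hx)).differentiableAt (by norm_num)

theorem dΦ0 {x : R4} (hx : x ∈ W) (i : Fin 4) : pd i (Φ 0) x = pd i v x - pd i ρ x :=
  HP.congrOn h.conf.isOpen hx h.Φ0 (HP.of_diff (h.conf.dΦ hx 0))
    ((HP.of_diff (h.dft hx h.smv)).sub (HP.of_diff (h.dft hx h.smρ))) i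

theorem ddΦ0 {x : R4} (hx : x ∈ W) (i j : Fin 4) :
    pd j (pd i (Φ 0)) x = pd j (pd i v) x - pd j (pd i ρ) x :=
  HP.congrOn h.conf.isOpen hx (fun _ hy => h.dΦ0 hy i) (HP.of_diff (h.conf.dpΦ hx 0 i))
    ((HP.of_diff (h.dpft hx h.smv i)).sub (HP.of_diff (h.dpft hx h.smρ i))) j

theorem dρ {x : R4} (hx : x ∈ W) (i : Fin 4) :
    Φ 1 x * pd i (Φ 1) x + Φ 2 x * pd i (Φ 2) x + Φ 3 x * pd i (Φ 3) x = ρ x * pd i ρ x := by
  have a1 := HP.of_diff (h.conf.dΦ hx 1)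
  have a2 := HP.of_diff (h.conf.dΦ hx 2)
  have a3 := HP.of_diff (h.conf.dΦ hx 3)
  have b := HP.of_diff (h.dft hx h.smρ)
  have := HP.congrOn h.conf.isOpen hx h.sph
    (((a1.mul a1).add (a2.mul a2)).add (a3.mul a3)) (b.mul b) i
  linear_combination this / 2

theorem ddρ {x : R4} (hx : x ∈ W) (i j : Fin 4) :
    (pd j (Φ 1) x * pd i (Φ 1) x + pd j (Φ 2) x * pd i (Φ 2) x + pd j (Φ 3) x * pd i (Φ 3) x)
      + (Φ 1 x * pd j (pd i (Φ 1)) x + Φ 2 x * pd j (pd i (Φ 2)) x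
        + Φ 3 x * pd j (pd i (Φ 3)) x) = pd j ρ x * pd i ρ x + ρ x * pd j (pd i ρ) x := by
  have a1 := (HP.of_diff (h.conf.dΦ hx 1)).mul (HP.of_diff (h.conf.dpΦ hx 1 i))
  have a2 := (HP.of_diff (h.conf.dΦ hx 2)).mul (HP.of_diff (h.conf.dpΦ hx 2 i))
  have a3 := (HP.of_diff (h.conf.dΦ hx 3)).mul (HP.of_diff (h.conf.dpΦ hx 3 i))
  have b := (HP.of_diff (h.dft hx h.smρ)).mul (HP.of_diff (h.dpft hx h.smρ i))
  have := HP.congrOn h.conf.isOpen hx (fun y hy => h.dρ hy i) ((a1.add a2).add a3) b j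
  linear_combination this

/-- the space part of the conformality relation. -/
theorem conf3 {x : R4} (hx : x ∈ W) (i j : Fin 4) :
    s x ^ 2 * (pd j (Φ 1) x * pd i (Φ 1) x + pd j (Φ 2) x * pd i (Φ 2) x
      + pd j (Φ 3) x * pd i (Φ 3) x) = s x ^ 2 * pd i (Φ 0) x * pd j (Φ 0) x - et i j := by
  have := h.conf.conf x hx i j
  rw [Fin.sum_univ_four] at this
  simp only [ep] at this
  simp at this
  linear_combination - this

/-- the Hessian of the null coordinate `v`. -/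
theorem hessv {x : R4} (hx : x ∈ W) (i j : Fin 4) :
    s x * pd j (pd i v) x + pd j s x * pd i v x + pd i s x * pd j v x
      = s x / ρ x * (- pd i v x * pd j v x + pd i v x * pd j (Φ 0) x + pd i (Φ 0) x * pd j v x)
        + et i j * ((∑ k, ep k * pd k s x * pd k v x) - 1 / (s x * ρ x)) := by
  have hs := (h.conf.pos x hx).ne'
  have hρ := h.ρ0 x hx
  have e0 := h.conf.second hx 0 j i
  have e1 := h.conf.second hx 1 j i
  have e2 := h.conf.second hx 2 j i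
  have e3 := h.conf.second hx 3 j i
  have c0 := h.dΦ0 hx i
  have c1 := h.dΦ0 hx j
  have d0 := h.ddΦ0 hx i j
  have r0 := h.dρ hx i
  have r1 := h.dρ hx j
  have rr := h.ddρ hx i j
  have cc := h.conf3 hx i j
  have es := et_symm i j
  rw [← es] at e0 e1 e2 e3
  simp only [Fin.sum_univ_four] at e0 e1 e2 e3 ⊢
  have k0 := h.dρ hx 0
  have k1 := h.dρ hx 1
  have k2 := h.dρ hx 2
  have k3 := h.dρ hx 3
  have l0 := h.dΦ0 hx 0
  have l1 := h.dΦ0 hx 1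
  have l2 := h.dΦ0 hx 2
  have l3 := h.dΦ0 hx 3
  have hv : pd i v x = pd i (Φ 0) x + pd i ρ x := by linear_combination - c0
  have hv' : pd j v x = pd j (Φ 0) x + pd j ρ x := by linear_combination - c1
  have hvv : pd j (pd i v) x = pd j (pd i (Φ 0)) x + pd j (pd i ρ) x := by
    linear_combination - d0
  have m0 : pd 0 v x = pd 0 (Φ 0) x + pd 0 ρ x := by linear_combination - l0
  have m1 : pd 1 v x = pd 1 (Φ 0) x + pd 1 ρ x := by linear_combination - l1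
  have m2 : pd 2 v x = pd 2 (Φ 0) x + pd 2 ρ x := by linear_combination - l2
  have m3 : pd 3 v x = pd 3 (Φ 0) x + pd 3 ρ x := by linear_combination - l3
  rw [hv, hv', hvv, m0, m1, m2, m3]
  field_simp
  linear_combination (s x * ρ x) * e0 + (s x * Φ 1 x) * e1 + (s x * Φ 2 x) * e2
    + (s x * Φ 3 x) * e3 - s x ^ 2 * rr + cc - s x * pd j s x * r0 - s x * pd i s x * r1
    + et i j * s x * (ep 0 * pd 0 s x * k0 + ep 1 * pd 1 s x * k1 + ep 2 * pd 2 s x * k2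
      + ep 3 * pd 3 s x * k3)

/-- `v` is a null coordinate. -/
theorem nullv {x : R4} (hx : x ∈ W) :
    pd 0 v x ^ 2 = pd 1 v x ^ 2 + pd 2 v x ^ 2 + pd 3 v x ^ 2 := by
  have hs := (h.conf.pos x hx).ne'
  have hρ := h.ρ0 x hx
  have k0 := h.dρ hx 0
  have k1 := h.dρ hx 1
  have k2 := h.dρ hx 2
  have k3 := h.dρ hx 3
  have l0 := h.dΦ0 hx 0
  have l1 := h.dΦ0 hx 1
  have l2 := h.dΦ0 hx 2
  have l3 := h.dΦ0 hx 3
  have m0 : ρ x * pd 0 v x = ρ x * pd 0 (Φ 0) x + (Φ 1 x * pd 0 (Φ 1) x + Φ 2 x * pd 0 (Φ 2) x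
    + Φ 3 x * pd 0 (Φ 3) x) := by rw [k0]; linear_combination - ρ x * l0
  have m1 : ρ x * pd 1 v x = ρ x * pd 1 (Φ 0) x + (Φ 1 x * pd 1 (Φ 1) x + Φ 2 x * pd 1 (Φ 2) x
    + Φ 3 x * pd 1 (Φ 3) x) := by rw [k1]; linear_combination - ρ x * l1
  have m2 : ρ x * pd 2 v x = ρ x * pd 2 (Φ 0) x + (Φ 1 x * pd 2 (Φ 1) x + Φ 2 x * pd 2 (Φ 2) x
    + Φ 3 x * pd 2 (Φ 3) x) := by rw [k2]; linear_combination - ρ x * l2
  have m3 : ρ x * pd 3 v x = ρ x * pd 3 (Φ 0) x + (Φ 1 x * pd 3 (Φ 1) x + Φ 2 x * pd 3 (Φ 2) x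
    + Φ 3 x * pd 3 (Φ 3) x) := by rw [k3]; linear_combination - ρ x * l3
  have q : ∀ a b : Fin 4, s x ^ 2 * (pd 0 (Φ a) x * pd 0 (Φ b) x - pd 1 (Φ a) x * pd 1 (Φ b) x
      - pd 2 (Φ a) x * pd 2 (Φ b) x - pd 3 (Φ a) x * pd 3 (Φ b) x) = et a b := by
    intro a b
    have := h.conf.conf' hx a b
    rw [Fin.sum_univ_four] at this
    simp only [ep] at this
    simp at this
    linear_combination this
  have q00 := q 0 0
  have q01 := q 0 1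
  have q02 := q 0 2
  have q03 := q 0 3
  have q11 := q 1 1
  have q12 := q 1 2
  have q13 := q 1 3
  have q22 := q 2 2
  have q23 := q 2 3
  have q33 := q 3 3
  rw [show et 0 0 = 1 by simp [et, ep]] at q00
  rw [show et 0 1 = 0 by simp [et]] at q01
  rw [show et 0 2 = 0 by simp [et]] at q02
  rw [show et 0 3 = 0 by simp [et]] at q03
  rw [show et 1 1 = -1 by simp [et, ep]] at q11
  rw [show et 2 2 = -1 by simp [et, ep]] at q22
  rw [show et 3 3 = -1 by simp [et, ep]] at q33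
  rw [show et 1 2 = 0 by simp [et]] at q12
  rw [show et 1 3 = 0 by simp [et]] at q13
  rw [show et 2 3 = 0 by simp [et]] at q23
  have hsp := h.sph x hx
  have e : (s x * ρ x) ^ 2 * (pd 0 v x ^ 2 - (pd 1 v x ^ 2 + pd 2 v x ^ 2 + pd 3 v x ^ 2)) = 0 := by
    have : (s x * ρ x) ^ 2 * (pd 0 v x ^ 2 - (pd 1 v x ^ 2 + pd 2 v x ^ 2 + pd 3 v x ^ 2))
      = s x ^ 2 * ((ρ x * pd 0 v x) ^ 2 - ((ρ x * pd 1 v x) ^ 2 + (ρ x * pd 2 v x) ^ 2
        + (ρ x * pd 3 v x) ^ 2)) := by ring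
    rw [this, m0, m1, m2, m3]
    linear_combination ρ x ^ 2 * q00 + 2 * ρ x * Φ 1 x * q01 + 2 * ρ x * Φ 2 x * q02
      + 2 * ρ x * Φ 3 x * q03 + Φ 1 x ^ 2 * q11 + Φ 2 x ^ 2 * q22 + Φ 3 x ^ 2 * q33
      + 2 * Φ 1 x * Φ 2 x * q12 + 2 * Φ 1 x * Φ 3 x * q13 + 2 * Φ 2 x * Φ 3 x * q23 - hsp
  have hne : (s x * ρ x) ^ 2 ≠ 0 := pow_ne_zero _ (mul_ne_zero hs hρ)
  have := (mul_eq_zero.mp e).resolve_left hne
  linear_combination this

/-- derivative of `e^{-F(m)/2}`. -/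
theorem hpg {x : R4} (hx : x ∈ W) : HP (fun y => exp (-(F (m y)) / 2)) x
    (fun i => - (P (m x) / 2) * exp (-(F (m x)) / 2) * pd i m x) := by
  have h1 := (((h.hF x hx).fun_neg).div_const 2).exp
  refine (HP.comp h1 (HP.of_diff (h.dft hx h.smm))).of_eq fun i => ?_
  ring

theorem dr {x : R4} (hx : x ∈ W) (i : Fin 4) : pd i ρ x
    = exp (-(F (m x)) / 2) * (pd i r x - P (m x) / 2 * r x * pd i m x) := by
  have := HP.congrOn h.conf.isOpen hx h.ρr (HP.of_diff (h.dft hx h.smρ))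
    ((HP.of_diff (h.dft hx h.smr)).mul (h.hpg hx)) i
  rw [this]
  ring

/-- the covector `τ = e^{-ψ} dt`, expressed through the flat coordinates. -/
noncomputable def tau (Φ : Fin 4 → R4 → ℝ) (F P : ℝ → ℝ) (r m v : R4 → ℝ) (i : Fin 4)
    (x : R4) : ℝ :=
  exp (-(F (m x)) / 2) * (- pd i (Φ 0) x - 1 / 2 * (P (m x) * (r x * pd i v x)))

theorem tau_eq {x : R4} (hx : x ∈ W) (i : Fin 4) :
    pd i t x = exp (ψ (t x)) * tau Φ F P r m v i x := by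
  have h1 := h.dm x hx i
  have h2 := h.dr hx i
  have h3 := h.dΦ0 hx i
  have h4 := h.dv x hx i
  have e1 : exp (F (m x) - ψ (t x)) * exp (ψ (t x))
      * (exp (-(F (m x)) / 2) * exp (-(F (m x)) / 2)) = 1 := by
    rw [← exp_add, ← exp_add, ← exp_add]
    rw [show F (m x) - ψ (t x) + ψ (t x) + (-(F (m x)) / 2 + -(F (m x)) / 2) = 0 by ring, exp_zero]
  have e2 : exp (F (m x) - ψ (t x)) ≠ 0 := (exp_pos _).ne'
  apply mul_left_cancel₀ e2
  simp only [tau]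
  rw [h3, h2, h4]
  linear_combination h1 + ((1 + P (m x) * r x) * pd i m x - pd i r x) * e1

/-- the Hessian identity for `τ`. -/
theorem hesstau {x : R4} (hx : x ∈ W) : ∃ C : ℝ, ∃ Γ : ℝ, ∀ i j : Fin 4,
    s x * pd j (tau Φ F P r m v i) x + pd j s x * tau Φ F P r m v i x
      + pd i s x * tau Φ F P r m v j x = Γ * pd i v x * pd j v x + C * et i j := by
  have hs := (h.conf.pos x hx).ne'
  have hρ := h.ρ0 x hx
  refine ⟨- exp (-(F (m x)) / 2) * (∑ k, ep k * pd k s x * pd k (Φ 0) x)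
    - 1 / 2 * P (m x) * ρ x * ((∑ k, ep k * pd k s x * pd k v x) - 1 / (s x * ρ x)),
    - 1 / 2 * s x * deriv P (m x) * r x, fun i j => ?_⟩
  have hPd : HP (fun y => P (m y)) x (fun i => deriv P (m x) * pd i m x) :=
    HP.comp (h.hP x hx).hasDerivAt (HP.of_diff (h.dft hx h.smm))
  have hr := HP.of_diff (h.dft hx h.smr)
  have hpv := HP.of_diff (h.dpft hx h.smv i)
  have hpΦ := HP.of_diff (h.conf.dpΦ hx 0 i)
  have hh := (h.hpg hx).mul ((hpΦ.neg).sub ((HP.const (1/2) x).mul (hPd.mul (hr.mul hpv))))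
  have e1 : pd j (tau Φ F P r m v i) x = _ := hh.e j
  rw [e1]
  have a1 := h.conf.second hx 0 j i
  rw [← et_symm i j] at a1
  have a2 := h.hessv hx i j
  have a3 := h.dv x hx j
  have a4 := h.dr hx j
  have a5 := h.dΦ0 hx j
  have a6 := h.ρr x hx
  simp only [tau]
  set g := exp (-(F (m x)) / 2)
  set S1 := ∑ k, ep k * pd k s x * pd k (Φ 0) x
  set S2 := (∑ k, ep k * pd k s x * pd k v x) - 1 / (s x * ρ x) with hS2
  have hg : g ≠ 0 := (exp_pos _).ne'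
  have hrj : g * pd j r x = pd j v x - pd j (Φ 0) x + P (m x) / 2 * r x * pd j v x := by
    have e1 : pd j ρ x = pd j v x - pd j (Φ 0) x := by rw [a5]; ring
    have e2 : g * pd j r x = pd j ρ x + P (m x) / 2 * r x * (g * pd j m x) := by
      rw [a4]; ring
    rw [e2, e1, ← a3]
  have hk : s x * pd j (pd i v) x * ρ x = (- pd j s x * pd i v x - pd i s x * pd j v x) * ρ x
      + s x * (- pd i v x * pd j v x + pd i v x * pd j (Φ 0) x + pd i (Φ 0) x * pd j v x)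
        + et i j * S2 * ρ x := by
    have a2' : s x * pd j (pd i v) x = - pd j s x * pd i v x - pd i s x * pd j v x
        + s x / ρ x * (- pd i v x * pd j v x + pd i v x * pd j (Φ 0) x + pd i (Φ 0) x * pd j v x)
        + et i j * S2 := by linear_combination a2
    rw [a2']; field_simp
  linear_combination (-g) * a1 - (P (m x) / 2) * hk
    + (P (m x) / 2) * (s x * pd j (pd i v) x + pd j s x * pd i v x + pd i s x * pd j v x) * a6
    - (P (m x) / 2) * s x * pd i v x * hrj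
    + (1 / 2 * s x * r x * pd i v x * deriv P (m x)
      - 1 / 2 * P (m x) * s x * (pd i (Φ 0) x + 1 / 2 * P (m x) * r x * pd i v x)) * a3

/-- `τ` is timelike when `1 + P r > 0`. -/
theorem tau_timelike {x : R4} (hx : x ∈ W) (hpos : 0 < 1 + P (m x) * r x) :
    0 < tau Φ F P r m v 0 x ^ 2 - (tau Φ F P r m v 1 x ^ 2 + tau Φ F P r m v 2 x ^ 2
      + tau Φ F P r m v 3 x ^ 2) := by
  have hs := (h.conf.pos x hx).ne'
  have hρ := h.ρ0 x hx
  have k0 := h.dρ hx 0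
  have k1 := h.dρ hx 1
  have k2 := h.dρ hx 2
  have k3 := h.dρ hx 3
  have l0 := h.dΦ0 hx 0
  have l1 := h.dΦ0 hx 1
  have l2 := h.dΦ0 hx 2
  have l3 := h.dΦ0 hx 3
  have m0 : ρ x * pd 0 v x = ρ x * pd 0 (Φ 0) x + (Φ 1 x * pd 0 (Φ 1) x + Φ 2 x * pd 0 (Φ 2) x
    + Φ 3 x * pd 0 (Φ 3) x) := by rw [k0]; linear_combination - ρ x * l0
  have m1 : ρ x * pd 1 v x = ρ x * pd 1 (Φ 0) x + (Φ 1 x * pd 1 (Φ 1) x + Φ 2 x * pd 1 (Φ 2) x
    + Φ 3 x * pd 1 (Φ 3) x) := by rw [k1]; linear_combination - ρ x * l1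
  have m2 : ρ x * pd 2 v x = ρ x * pd 2 (Φ 0) x + (Φ 1 x * pd 2 (Φ 1) x + Φ 2 x * pd 2 (Φ 2) x
    + Φ 3 x * pd 2 (Φ 3) x) := by rw [k2]; linear_combination - ρ x * l2
  have m3 : ρ x * pd 3 v x = ρ x * pd 3 (Φ 0) x + (Φ 1 x * pd 3 (Φ 1) x + Φ 2 x * pd 3 (Φ 2) x
    + Φ 3 x * pd 3 (Φ 3) x) := by rw [k3]; linear_combination - ρ x * l3
  have q : ∀ a b : Fin 4, s x ^ 2 * (pd 0 (Φ a) x * pd 0 (Φ b) x - pd 1 (Φ a) x * pd 1 (Φ b) x
      - pd 2 (Φ a) x * pd 2 (Φ b) x - pd 3 (Φ a) x * pd 3 (Φ b) x) = et a b := by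
    intro a b
    have := h.conf.conf' hx a b
    rw [Fin.sum_univ_four] at this
    simp only [ep] at this
    simp at this
    linear_combination this
  have q00 := q 0 0
  have q01 := q 0 1
  have q02 := q 0 2
  have q03 := q 0 3
  rw [show et 0 0 = 1 by simp [et, ep]] at q00
  rw [show et 0 1 = 0 by simp [et]] at q01
  rw [show et 0 2 = 0 by simp [et]] at q02
  rw [show et 0 3 = 0 by simp [et]] at q03
  have hnull := h.nullv hx
  have hmix : s x ^ 2 * ρ x * (pd 0 (Φ 0) x * pd 0 v x - pd 1 (Φ 0) x * pd 1 v x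
      - pd 2 (Φ 0) x * pd 2 v x - pd 3 (Φ 0) x * pd 3 v x) = ρ x := by
    linear_combination s x ^ 2 * (pd 0 (Φ 0) x * m0 - pd 1 (Φ 0) x * m1 - pd 2 (Φ 0) x * m2
      - pd 3 (Φ 0) x * m3) + ρ x * q00 + Φ 1 x * q01 + Φ 2 x * q02 + Φ 3 x * q03
  have hmix' : s x ^ 2 * (pd 0 (Φ 0) x * pd 0 v x - pd 1 (Φ 0) x * pd 1 v x
      - pd 2 (Φ 0) x * pd 2 v x - pd 3 (Φ 0) x * pd 3 v x) = 1 := by
    apply mul_left_cancel₀ hρ
    linear_combination hmix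
  have hg : 0 < exp (-(F (m x)) / 2) := exp_pos _
  have e : s x ^ 2 * (tau Φ F P r m v 0 x ^ 2 - (tau Φ F P r m v 1 x ^ 2
      + tau Φ F P r m v 2 x ^ 2 + tau Φ F P r m v 3 x ^ 2))
      = exp (-(F (m x)) / 2) ^ 2 * (1 + P (m x) * r x) := by
    simp only [tau]
    linear_combination exp (-(F (m x)) / 2) ^ 2 * (q00 + P (m x) * r x * hmix'
      + s x ^ 2 * (1 / 4 * (P (m x) * r x) ^ 2) * hnull)
  have hpos2 : 0 < exp (-(F (m x)) / 2) ^ 2 * (1 + P (m x) * r x) := by positivity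
  rw [← e] at hpos2
  exact (mul_pos_iff_of_pos_left (by positivity)).mp hpos2

/-- The Hessian of the conformal factor. -/
theorem hD2 {x : R4} (hx : x ∈ W) : ∃ (τ n : Fin 4 → ℝ) (A Γ C β : ℝ),
      (∀ i j, s x * pd i (pd j (fun y => exp (-(ψ (t y)) / 2))) x
        + pd i s x * pd j (fun y => exp (-(ψ (t y)) / 2)) x
        + pd j s x * pd i (fun y => exp (-(ψ (t y)) / 2)) x
        = A * τ i * τ j + Γ * n i * n j + C * et i j) ∧
      n 0 ^ 2 = n 1 ^ 2 + n 2 ^ 2 + n 3 ^ 2 ∧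
      (∀ i, pd i (fun y => exp (-(ψ (t y)) / 2)) x = β * τ i) ∧
      (0 < 1 + P (m x) * r x → 0 < τ 0 ^ 2 - (τ 1 ^ 2 + τ 2 ^ 2 + τ 3 ^ 2)) := by
  have d1 : ∀ y ∈ W, ∀ i, pd i (fun y => exp (-(ψ (t y)) / 2)) y
      = (- (1 / 2) * (deriv ψ (t y) * exp (ψ (t y) / 2))) * tau Φ F P r m v i y := by
    intro y hy i
    have h1 := (((h.hψ y hy).hasDerivAt.fun_neg).div_const 2).exp
    have h2 := (HP.comp h1 (HP.of_diff (h.dft hy h.smt))).e i
    rw [h2, h.tau_eq hy i]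
    have e : exp (-ψ (t y) / 2) * exp (ψ (t y)) = exp (ψ (t y) / 2) := by
      rw [← exp_add]; congr 1; ring
    linear_combination (-deriv ψ (t y) / 2) * tau Φ F P r m v i y * e
  obtain ⟨C, Γ, hC⟩ := h.hesstau hx
  have hB : HP (fun y => - (1 / 2) * (deriv ψ (t y) * exp (ψ (t y) / 2))) x
      (fun i => (- (1 / 2) * (deriv ψ (t x) * (exp (ψ (t x) / 2) * (deriv ψ (t x) / 2))
        + exp (ψ (t x) / 2) * deriv (deriv ψ) (t x))) * (exp (ψ (t x)) * tau Φ F P r m v i x)) := by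
    have h1 := (((h.hψ x hx).hasDerivAt).div_const 2).exp
    have h2 := (h.hψ' x hx).hasDerivAt
    have h3 := HP.comp h1 (HP.of_diff (h.dft hx h.smt))
    have h4 := HP.comp h2 (HP.of_diff (h.dft hx h.smt))
    refine ((HP.const (- (1/2)) x).mul (h4.mul h3)).of_eq fun i => ?_
    rw [h.tau_eq hx i]
    ring
  have hτ : ∀ j, DifferentiableAt ℝ (tau Φ F P r m v j) x := by
    intro j
    have hPd : HP (fun y => P (m y)) x (fun i => deriv P (m x) * pd i m x) :=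
      HP.comp (h.hP x hx).hasDerivAt (HP.of_diff (h.dft hx h.smm))
    have hr := HP.of_diff (h.dft hx h.smr)
    have hpv := HP.of_diff (h.dpft hx h.smv j)
    have hpΦ := HP.of_diff (h.conf.dpΦ hx 0 j)
    exact ((h.hpg hx).mul ((hpΦ.neg).sub ((HP.const (1/2) x).mul (hPd.mul (hr.mul hpv))))).d
  refine ⟨fun i => tau Φ F P r m v i x, fun i => pd i v x,
    s x * (- (1 / 2) * (deriv ψ (t x) * (exp (ψ (t x) / 2) * (deriv ψ (t x) / 2))
        + exp (ψ (t x) / 2) * deriv (deriv ψ) (t x))) * exp (ψ (t x)),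
    (- (1 / 2) * (deriv ψ (t x) * exp (ψ (t x) / 2))) * Γ,
    (- (1 / 2) * (deriv ψ (t x) * exp (ψ (t x) / 2))) * C,
    - (1 / 2) * (deriv ψ (t x) * exp (ψ (t x) / 2)), ?_, h.nullv hx, fun i => d1 x hx i,
    fun hpos => h.tau_timelike hx hpos⟩
  intro i j
  have e1 := pd_congr h.conf.isOpen (fun y hy => d1 y hy j) hx i
  have e2 := (hB.mul (HP.of_diff (hτ j))).e i
  rw [e1, e2, d1 x hx i, d1 x hx j]
  have e3 := hC j i
  rw [et_symm j i] at e3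
  linear_combination (-(1 / 2) * (deriv ψ (t x) * exp (ψ (t x) / 2))) * e3

theorem hD {x : R4} (hx : x ∈ W) : ∃ (τ n : Fin 4 → ℝ) (A Γ C β : ℝ),
      (∀ i j, s x * pd i (pd j (fun y => exp (-(ψ (t y)) / 2))) x
        + pd i s x * pd j (fun y => exp (-(ψ (t y)) / 2)) x
        + pd j s x * pd i (fun y => exp (-(ψ (t y)) / 2)) x
        = A * τ i * τ j + Γ * n i * n j + C * et i j) ∧
      n 0 ^ 2 = n 1 ^ 2 + n 2 ^ 2 + n 3 ^ 2 ∧
      (∀ i, pd i (fun y => exp (-(ψ (t y)) / 2)) x = β * τ i) := by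
  obtain ⟨τ, n, A, Γ, C, β, h1, h2, h3, -⟩ := h.hD2 hx
  exact ⟨τ, n, A, Γ, C, β, h1, h2, h3⟩

/-- The contradiction. -/
theorem absurd (hWne : W.Nonempty) {a b : ℝ} (hb : b ≠ 0) (hab : a + b ≠ 0)
    (hq : ∀ x ∈ W, 0 < qq a b x) (hR : ∀ x ∈ W, x 1 ^ 2 + x 2 ^ 2 ≠ 0)
    (hws : ∀ x ∈ W, w2 a b x = exp (-(ψ (t x)) / 2) * s x) : False :=
  final h.conf hWne hb hab hq hR (w := fun y => exp (-(ψ (t y)) / 2))
    ((h.smψ.neg.div_const 2).exp) hws (fun _ hx => h.hD hx)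

/-- The contradiction in the case `b = -a`, `a < 0`. -/
theorem absurd2 (hWne : W.Nonempty) {a b : ℝ} (ha : a < 0) (hab : a + b = 0)
    (hq : ∀ x ∈ W, 0 < qq a b x) (hR : ∀ x ∈ W, x 1 ^ 2 + x 2 ^ 2 ≠ 0)
    (hpos : ∀ x ∈ W, 0 < 1 + P (m x) * r x)
    (hws : ∀ x ∈ W, w2 a b x = exp (-(ψ (t x)) / 2) * s x) : False := by
  obtain ⟨x, hx⟩ := hWne
  obtain ⟨τ, n, A, Γ, C, β, h1, h2, h3, h4⟩ := h.hD2 hx
  have h5 := h4 (hpos x hx)
  obtain ⟨⟨A', Γ', C', h6⟩, -⟩ := ptw h.conf hq (w := fun y => exp (-(ψ (t y)) / 2))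
    ((h.smψ.neg.div_const 2).exp) hws hx h1 h3
  have hRp : 0 < x 1 ^ 2 + x 2 ^ 2 := lt_of_le_of_ne (by positivity) (Ne.symm (hR x hx))
  have hqx := hq x hx
  have h00 := h6 0 0
  have h01 := h6 0 1
  have h02 := h6 0 2
  have h03 := h6 0 3
  have h11 := h6 1 1
  have h12 := h6 1 2
  have h13 := h6 1 3
  have h22 := h6 2 2
  have h23 := h6 2 3
  have h33 := h6 3 3
  rw [hab] at h00 h01 h02 h03 h11 h12 h13 h22 h23 h33
  simp only [mu, et, ep] at h00 h01 h02 h03 h11 h12 h13 h22 h23 h33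
  simp at h00 h01 h02 h03 h11 h12 h13 h22 h23 h33
  have hC : C' = 0 := algC (x1 := x 1) (x2 := x 2) (x3 := x 3) (t0 := τ 0) (t1 := τ 1)
    (t2 := τ 2) (t3 := τ 3) (n0 := n 0) (n1 := n 1) (n2 := n 2) (n3 := n 3) (A := A')
    (Γ := Γ')
    (C := C') (b := 3 * b ^ 2) (u := 3 * a * b * x 0) hRp
    (by linear_combination h01) (by linear_combination h02) (by linear_combination h03)
    (by linear_combination h11) (by linear_combination h12) (by linear_combination h13)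
    (by linear_combination h22) (by linear_combination h23) (by linear_combination h33) h2
  subst hC
  have hb : b = -a := by linarith
  subst hb
  have hq' : qq a (-a) x = a * (x 0 ^ 2 - (x 1 ^ 2 + x 2 ^ 2 + x 3 ^ 2)) := by
    simp only [qq]; ring
  obtain ⟨M, hM⟩ : ∃ M, M = a * qq a (-a) x := ⟨_, rfl⟩
  have hMneg : M < 0 := by rw [hM]; exact mul_neg_of_neg_of_pos ha hqx
  obtain ⟨N, hN⟩ : ∃ N, N = τ 0 ^ 2 - (τ 1 ^ 2 + τ 2 ^ 2 + τ 3 ^ 2) := ⟨_, rfl⟩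
  rw [← hN] at h5
  obtain ⟨L, hL⟩ : ∃ L, L = τ 0 * n 0 - τ 1 * n 1 - τ 2 * n 2 - τ 3 * n 3 := ⟨_, rfl⟩
  have tr : 3 * M = A' * N := by
    rw [hM, hN, hq']
    linear_combination h00 - h11 - h22 - h33 + Γ' * h2
  have full : A' * Γ' * L ^ 2 = 0 := by
    have : 9 * M ^ 2 = A' ^ 2 * N ^ 2 + 2 * A' * Γ' * L ^ 2 := by
      rw [hM, hN, hq', hL]
      linear_combination (3 * (a * x 0) * (a * x 0) + (A' * τ 0 * τ 0 + Γ' * n 0 * n 0)) * h00
        + (3 * (a * x 1) * (a * x 1) + (A' * τ 1 * τ 1 + Γ' * n 1 * n 1)) * h11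
        + (3 * (a * x 2) * (a * x 2) + (A' * τ 2 * τ 2 + Γ' * n 2 * n 2)) * h22
        + (3 * (a * x 3) * (a * x 3) + (A' * τ 3 * τ 3 + Γ' * n 3 * n 3)) * h33
        - 2 * (- 3 * (a * x 0) * (a * x 1) + (A' * τ 0 * τ 1 + Γ' * n 0 * n 1)) * h01
        - 2 * (- 3 * (a * x 0) * (a * x 2) + (A' * τ 0 * τ 2 + Γ' * n 0 * n 2)) * h02
        - 2 * (- 3 * (a * x 0) * (a * x 3) + (A' * τ 0 * τ 3 + Γ' * n 0 * n 3)) * h03
        + 2 * (3 * (a * x 1) * (a * x 2) + (A' * τ 1 * τ 2 + Γ' * n 1 * n 2)) * h12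
        + 2 * (3 * (a * x 1) * (a * x 3) + (A' * τ 1 * τ 3 + Γ' * n 1 * n 3)) * h13
        + 2 * (3 * (a * x 2) * (a * x 3) + (A' * τ 2 * τ 3 + Γ' * n 2 * n 3)) * h23
        + Γ' ^ 2 * (n 0 ^ 2 - (n 1 ^ 2 + n 2 ^ 2 + n 3 ^ 2)) * h2
    linear_combination - (this - (3 * M + A' * N) * tr) / 2
  have sq : 3 * (a * (x 0 * τ 0 + x 1 * τ 1 + x 2 * τ 2 + x 3 * τ 3)) ^ 2
      = A' * N ^ 2 + Γ' * L ^ 2 := by
    rw [hN, hL]
    linear_combination τ 0 ^ 2 * h00 + τ 1 ^ 2 * h11 + τ 2 ^ 2 * h22 + τ 3 ^ 2 * h33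
      - 2 * τ 0 * τ 1 * h01 - 2 * τ 0 * τ 2 * h02 - 2 * τ 0 * τ 3 * h03
      + 2 * τ 1 * τ 2 * h12 + 2 * τ 1 * τ 3 * h13 + 2 * τ 2 * τ 3 * h23
  have hA : A' < 0 := by
    by_contra hA
    have : 0 ≤ A' * N := mul_nonneg (not_lt.mp hA) h5.le
    linarith
  have hΓ : Γ' * L ^ 2 = 0 := by
    rw [mul_assoc] at full
    exact (mul_eq_zero.mp full).resolve_left hA.ne
  rw [hΓ, add_zero] at sq
  have h7 : A' * N ^ 2 < 0 := mul_neg_of_neg_of_pos hA (by positivity)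
  rw [← sq] at h7
  have h8 := sq_nonneg (a * (x 0 * τ 0 + x 1 * τ 1 + x 2 * τ 2 + x 3 * τ 3))
  linarith

end VSPull

end Pool.Agent.Q233.SV
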