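import Pool.Agent.Q233.SV.E

/-!
# Spherical coordinates and the flat coordinates of the first Vaidya–Shah class
-/

namespace Pool.Agent.Q233.SV

open Real Set Filter Topology
open scoped ContDiff

/-- `f` is differentiable at `p` with differential `v`. -/
structure HX (f : R4 → ℝ) (p : R4) (v : R4 → ℝ) : Prop where
  d : DifferentiableAt ℝ f p
  e : ∀ x, fderiv ℝ f p x = v x

namespace HX

variable {f g : R4 → ℝ} {p : R4} {v w : R4 → ℝ}

theorem sub (hf : HX f p v) (hg : HX g p w) : HX (fun y => f y - g y) p (fun i => v i - w i) :=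
  ⟨hf.d.fun_sub hg.d, fun i => by rw [fderiv_fun_sub hf.d hg.d]; simp [hf.e, hg.e]⟩

theorem mul (hf : HX f p v) (hg : HX g p w) :
    HX (fun y => f y * g y) p (fun i => f p * w i + g p * v i) :=
  ⟨hf.d.fun_mul hg.d, fun i => by rw [fderiv_fun_mul hf.d hg.d]; simp [hf.e, hg.e]⟩

theorem coord (j : Fin 4) (p : R4) : HX (fun y => y j) p (fun x => x j) := by
  have h : HasFDerivAt (fun y : R4 => y j) (ContinuousLinearMap.proj (R := ℝ) j) p :=
    (ContinuousLinearMap.proj (R := ℝ) (φ := fun _ : Fin 4 => ℝ) j).hasFDerivAt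
  exact ⟨h.differentiableAt, fun x => by rw [h.fderiv]; simp⟩

theorem comp {G : ℝ → ℝ} {G' : ℝ} (hG : HasDerivAt G G' (f p)) (hf : HX f p v) :
    HX (fun y => G (f y)) p (fun i => G' * v i) := by
  have h := hG.comp_hasFDerivAt p hf.d.hasFDerivAt
  have h2 : fderiv ℝ (fun y => G (f y)) p = G' • fderiv ℝ f p := h.fderiv
  exact ⟨h.differentiableAt, fun x => by rw [h2]; simp [hf.e]⟩

theorem of_eq (hf : HX f p v) (h : ∀ i, v i = w i) : HX f p w := ⟨hf.d, fun i => by rw [hf.e, h]⟩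

end HX

/-- the point of Minkowski space with spherical coordinates `(T, ρ, p 2, p 3)`. -/
noncomputable def pol (T ρ : R4 → ℝ) (a : Fin 4) (p : R4) : ℝ :=
  if a = 0 then T p else if a = 1 then ρ p * (sin (p 2) * cos (p 3))
  else if a = 2 then ρ p * (sin (p 2) * sin (p 3)) else ρ p * cos (p 2)

/-- the flat metric in spherical coordinates. -/
theorem pol_metric {T ρ : R4 → ℝ} {p : R4} {dT dρ : R4 → ℝ} (hT : HX T p dT) (hρ : HX ρ p dρ)
    (x y : R4) : (∑ a, ep a * fderiv ℝ (pol T ρ a) p x * fderiv ℝ (pol T ρ a) p y)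
      = dT x * dT y - dρ x * dρ y - ρ p ^ 2 * sph p x y := by
  have c2 := HX.coord 2 p
  have c3 := HX.coord 3 p
  have s2 := HX.comp (Real.hasDerivAt_sin (p 2)) c2
  have k2 := HX.comp (Real.hasDerivAt_cos (p 2)) c2
  have s3 := HX.comp (Real.hasDerivAt_sin (p 3)) c3
  have k3 := HX.comp (Real.hasDerivAt_cos (p 3)) c3
  have h1 := hρ.mul (s2.mul k3)
  have h2 := hρ.mul (s2.mul s3)
  have h3 := hρ.mul k2
  have e0 : pol T ρ 0 = T := by funext q; simp [pol]
  have e1 : pol T ρ 1 = fun q => ρ q * (sin (q 2) * cos (q 3)) := by funext q; simp [pol]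
  have e2 : pol T ρ 2 = fun q => ρ q * (sin (q 2) * sin (q 3)) := by funext q; simp [pol]
  have e3 : pol T ρ 3 = fun q => ρ q * cos (q 2) := by funext q; simp [pol]
  rw [Fin.sum_univ_four, e0, e1, e2, e3, hT.e, hT.e, h1.e, h1.e, h2.e, h2.e, h3.e, h3.e]
  simp only [ep, sph, Matrix.cons_val]
  have t2 := Real.sin_sq_add_cos_sq (p 2)
  have t3 := Real.sin_sq_add_cos_sq (p 3)
  have t2' : cos (p 2) ^ 2 = 1 - sin (p 2) ^ 2 := by linear_combination t2
  have t3' : cos (p 3) ^ 2 = 1 - sin (p 3) ^ 2 := by linear_combination t3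
  ring_nf
  rw [t2', t3']
  ring

theorem hxT (p : R4) : HX (fun q => q 0) p (fun x => x 0) := HX.coord 0 p
theorem hxr (p : R4) : HX (fun q => q 1) p (fun x => x 1) := HX.coord 1 p

/-- spherical coordinates. -/
noncomputable def J (p : R4) : R4 := fun a => pol (fun q => q 0) (fun q => q 1) a p

theorem J_metric (p x y : R4) :
    (∑ a, ep a * fderiv ℝ (fun q => J q a) p x * fderiv ℝ (fun q => J q a) p y)
      = x 0 * y 0 - x 1 * y 1 - p 1 ^ 2 * sph p x y :=
  pol_metric (hxT p) (hxr p) x y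

theorem J_smooth : ContDiff ℝ ω J := by
  rw [contDiff_pi]
  intro a
  have c : ∀ j : Fin 4, ContDiff ℝ ω (fun q : R4 => q j) := fun j => contDiff_apply ℝ ℝ j
  have s2 := (c 2).sin
  have s3 := (c 3).sin
  have k2 := (c 2).cos
  have k3 := (c 3).cos
  fin_cases a
  · exact c 0
  · exact (c 1).mul (s2.mul k3)
  · exact (c 1).mul (s2.mul s3)
  · exact (c 1).mul k2

/-- the local inverse of spherical coordinates. -/
theorem J_inv {p : R4} (h1 : p 1 ≠ 0) (h2 : sin (p 2) ≠ 0) :
    ∃ σ : R4 → R4, σ (J p) = p ∧ ContDiffAt ℝ 3 σ (J p) ∧ ∀ᶠ z in 𝓝 (J p), J (σ z) = z := by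
  have hJ : ContDiffAt ℝ 3 J p := J_smooth.contDiffAt.of_le le_top
  have hd : DifferentiableAt ℝ J p := hJ.differentiableAt (by norm_num)
  have hinj : Function.Injective (fderiv ℝ J p : R4 →ₗ[ℝ] R4) := by
    rw [← LinearMap.ker_eq_bot, LinearMap.ker_eq_bot']
    intro x hx
    have hx' : fderiv ℝ J p x = 0 := hx
    have hc : ∀ a, fderiv ℝ (fun q => J q a) p x = 0 := by
      intro a
      have h3 := (hasFDerivAt_pi'.mp hd.hasFDerivAt) a
      rw [h3.fderiv]
      simp [hx']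
    have key : ∀ y : R4, x 0 * y 0 - x 1 * y 1 - p 1 ^ 2 * sph p x y = 0 := by
      intro y
      rw [← J_metric]
      simp [hc]
    funext i
    fin_cases i
    · simpa [sph] using key (Pi.single 0 1)
    · simpa [sph] using key (Pi.single 1 1)
    · simpa [sph, h1] using key (Pi.single 2 1)
    · simpa [sph, h1, h2] using key (Pi.single 3 1)
  let J' : R4 ≃L[ℝ] R4 :=
    (LinearEquiv.ofInjectiveEndo (fderiv ℝ J p : R4 →ₗ[ℝ] R4) hinj).toContinuousLinearEquiv
  have hJ' : HasFDerivAt J (J' : R4 →L[ℝ] R4) p := by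
    have : (J' : R4 →L[ℝ] R4) = fderiv ℝ J p := by
      ext x
      rfl
    rw [this]
    exact hd.hasFDerivAt
  refine ⟨hJ.localInverse hJ' (by norm_num), ?_, hJ.to_localInverse hJ' (by norm_num), ?_⟩
  · exact hJ.localInverse_apply_image hJ' (by norm_num)
  · exact (hJ.hasStrictFDerivAt' hJ' (by norm_num)).eventually_right_inverse

end Pool.Agent.Q233.SV
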