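import Pool.Agent.Q233.SV.G

/-!
# The first Vaidya–Shah class in flat coordinates and the assembly
-/

namespace Pool.Agent.Q233.SV

open Real Set Filter Topology
open scoped ContDiff

theorem K_exists {F : ℝ → ℝ} {I : Set ℝ} (hI : IsOpen I) (hF : ContDiffOn ℝ ∞ F I) {m0 : ℝ}
    (hm : m0 ∈ I) : ∃ δ : ℝ, 0 < δ ∧ Metric.ball m0 δ ⊆ I ∧ ∃ K : ℝ → ℝ,
      (∀ s ∈ Metric.ball m0 δ, HasDerivAt K (exp (-(F s) / 2)) s) ∧
      ContDiffOn ℝ 3 K (Metric.ball m0 δ) := by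
  obtain ⟨δ, hδ, hsub⟩ := Metric.isOpen_iff.mp hI m0 hm
  have hFc : ContinuousOn (fun s => exp (-(F s) / 2)) (Metric.ball m0 δ) :=
    ((hF.continuousOn.mono hsub).neg.div_const 2).rexp
  have hK : ∀ s ∈ Metric.ball m0 δ,
      HasDerivAt (fun s => ∫ u in m0..s, exp (-(F u) / 2)) (exp (-(F s) / 2)) s := by
    intro s hs
    have hseg : uIcc m0 s ⊆ Metric.ball m0 δ := by
      rw [Real.ball_eq_Ioo] at hs ⊢
      exact OrdConnected.uIcc_subset ordConnected_Ioo ⟨by linarith, by linarith⟩ hs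
    refine intervalIntegral.integral_hasDerivAt_right ((hFc.mono hseg).intervalIntegrable) ?_
      (hFc.continuousAt (Metric.isOpen_ball.mem_nhds hs))
    exact hFc.stronglyMeasurableAtFilter Metric.isOpen_ball s hs
  refine ⟨δ, hδ, hsub, _, hK, ?_⟩
  have : ContDiffOn ℝ (2 + 1) (fun s => ∫ u in m0..s, exp (-(F u) / 2)) (Metric.ball m0 δ) := by
    rw [contDiffOn_succ_iff_deriv_of_isOpen Metric.isOpen_ball]
    refine ⟨fun s hs => (hK s hs).differentiableAt.differentiableWithinAt, by simp, ?_⟩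
    have h2 : ContDiffOn ℝ 2 (fun s => exp (-(F s) / 2)) (Metric.ball m0 δ) :=
      (((hF.mono hsub).of_le ENat.LEInfty.out).neg.div_const 2).exp
    exact h2.congr fun s hs => (hK s hs).deriv
  exact this.of_le (by norm_num)

namespace VSData

variable (D : VSData)

theorem hx_m {p : R4} (hp : (p 0, p 1) ∈ D.U) : HX (fun q => D.m (q 0, q 1)) p
    (fun x => (1 + D.P (D.m (p 0, p 1)) * p 1)⁻¹
      * (x 1 - exp (D.F (D.m (p 0, p 1)) - D.ψ (p 0)) * x 0)) := by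
  have hd : DifferentiableAt ℝ D.m (p 0, p 1) :=
    (D.smooth_m.contDiffAt (D.isOpen_U.mem_nhds hp)).differentiableAt (by simp)
  have h1 : HasFDerivAt (fun q : R4 => (q 0, q 1))
      ((ContinuousLinearMap.proj (R := ℝ) (φ := fun _ : Fin 4 => ℝ) 0).prod
        (ContinuousLinearMap.proj (R := ℝ) (φ := fun _ : Fin 4 => ℝ) 1)) p :=
    ((ContinuousLinearMap.proj (R := ℝ) (φ := fun _ : Fin 4 => ℝ) 0).prod
        (ContinuousLinearMap.proj (R := ℝ) (φ := fun _ : Fin 4 => ℝ) 1)).hasFDerivAt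
  have h2 := HasFDerivAt.comp p (f := fun q : R4 => (q 0, q 1)) hd.hasFDerivAt h1
  have e0 : fderiv ℝ D.m (p 0, p 1) (0, 1) = (1 + D.P (D.m (p 0, p 1)) * p 1)⁻¹ := by
    have g : HasDerivAt (fun r : ℝ => (p 0, r)) ((0 : ℝ), (1 : ℝ)) (p 1) :=
      (hasDerivAt_const (p 1) (p 0)).prodMk (hasDerivAt_id (p 1))
    exact (hd.hasFDerivAt.comp_hasDerivAt (p 1) g).unique (D.deriv_r _ hp)
  have e1 : fderiv ℝ D.m (p 0, p 1) (1, 0) = (-exp (-D.ψ (p 0))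
      * (1 + D.P (D.m (p 0, p 1)) * p 1)⁻¹ * exp (D.F (D.m (p 0, p 1)))) := by
    have g : HasDerivAt (fun r : ℝ => (r, p 1)) ((1 : ℝ), (0 : ℝ)) (p 0) :=
      (hasDerivAt_id (p 0)).prodMk (hasDerivAt_const (p 0) (p 1))
    exact (hd.hasFDerivAt.comp_hasDerivAt (p 0) g).unique (D.deriv_t _ hp)
  refine ⟨h2.differentiableAt, fun x => ?_⟩
  have h3 : fderiv ℝ (fun q => D.m (q 0, q 1)) p = _ := h2.fderiv
  rw [h3]
  have e2 : ((fderiv ℝ D.m (p 0, p 1)).comp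
      ((ContinuousLinearMap.proj (R := ℝ) (φ := fun _ : Fin 4 => ℝ) 0).prod
        (ContinuousLinearMap.proj (R := ℝ) (φ := fun _ : Fin 4 => ℝ) 1))) x
      = fderiv ℝ D.m (p 0, p 1) (x 0, x 1) := by simp
  rw [e2]
  have e3 : ((x 0, x 1) : ℝ × ℝ) = x 0 • ((1 : ℝ), (0 : ℝ)) + x 1 • ((0 : ℝ), (1 : ℝ)) := by simp
  rw [e3, map_add, map_smul, map_smul, e0, e1, sub_eq_add_neg (D.F _), add_comm (D.F _), exp_add]
  simp only [smul_eq_mul]
  ring

/-- `e^{-F(m)/2}` -/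
noncomputable def g (p : R4) : ℝ := exp (-(D.F (D.m (p 0, p 1))) / 2)

/-- flat radius -/
noncomputable def rho (p : R4) : ℝ := p 1 * D.g p

theorem hx_g {p : R4} (hp : (p 0, p 1) ∈ D.U) : HX D.g p
    (fun x => - (D.P (D.m (p 0, p 1)) / 2) * D.g p * ((1 + D.P (D.m (p 0, p 1)) * p 1)⁻¹
      * (x 1 - exp (D.F (D.m (p 0, p 1)) - D.ψ (p 0)) * x 0))) := by
  have h1 := (((D.deriv_F _ (D.maps_I _ hp)).fun_neg).div_const 2).exp
  refine (HX.comp h1 (D.hx_m hp)).of_eq fun x => ?_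
  simp only [g]
  ring

theorem hx_rho {p : R4} (hp : (p 0, p 1) ∈ D.U) : HX D.rho p
    (fun x => D.g p * (x 1 - D.P (D.m (p 0, p 1)) / 2 * p 1
      * ((1 + D.P (D.m (p 0, p 1)) * p 1)⁻¹
      * (x 1 - exp (D.F (D.m (p 0, p 1)) - D.ψ (p 0)) * x 0)))) :=
  ((hxr p).mul (D.hx_g hp)).of_eq fun x => by ring

/-- the metric of the first class is conformal to the flat metric. -/
theorem metric_flat {p : R4} (hp : p ∈ D.region) {K : ℝ → ℝ}
    (hK : HasDerivAt K (exp (-(D.F (D.m (p 0, p 1))) / 2)) (D.m (p 0, p 1))) (x y : R4) :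
    exp (D.ψ (p 0)) * (∑ a, ep a
        * fderiv ℝ (pol (fun q => K (D.m (q 0, q 1)) - D.rho q) D.rho a) p x
        * fderiv ℝ (pol (fun q => K (D.m (q 0, q 1)) - D.rho q) D.rho a) p y)
      = D.metric p x y := by
  obtain ⟨hpU, hp1, -⟩ := hp
  have hρ := D.hx_rho hpU
  have hT := (HX.comp hK (D.hx_m hpU)).sub hρ
  rw [pol_metric hT hρ x y]
  have hopr : D.opr p ≠ 0 := (D.pos _ hpU).ne'
  have e1 : (p 1 / D.rbar p) ^ 2 = exp (D.F (D.m (p 0, p 1)) - D.ψ (p 0)) := by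
    rw [rbar, div_mul_eq_div_div, div_self hp1, one_div, inv_pow, ← exp_nat_mul, ← exp_neg]
    congr 1
    push_cast
    ring
  have e2 : (D.rbar p / p 1) ^ 2 = (exp (D.F (D.m (p 0, p 1)) - D.ψ (p 0)))⁻¹ := by
    rw [← e1, ← inv_pow, inv_div]
  have e3 : D.rbar p ^ 2 = p 1 ^ 2 * (exp (D.F (D.m (p 0, p 1)) - D.ψ (p 0)))⁻¹ := by
    rw [← e2]; field_simp
  have e4 : exp (D.ψ (p 0)) * (D.g p) ^ 2 = (exp (D.F (D.m (p 0, p 1)) - D.ψ (p 0)))⁻¹ := by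
    rw [g, ← exp_nat_mul, ← exp_add, ← exp_neg]
    congr 1
    push_cast
    ring
  rw [metric, e1, e2, e3]
  have hg : exp (-(D.F (D.m (p 0, p 1))) / 2) = D.g p := rfl
  rw [hg, rho]
  set E := exp (D.F (D.m (p 0, p 1)) - D.ψ (p 0)) with hE
  have hE0 : E ≠ 0 := (exp_pos _).ne'
  set G := D.g p
  set S := exp (D.ψ (p 0))
  have hS : S * G ^ 2 = E⁻¹ := e4
  simp only [opr] at hopr ⊢
  set k := D.P (D.m (p 0, p 1))
  set u := 1 + k * p 1 with hu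
  have hk : k * p 1 = u - 1 := by rw [hu]; ring
  have f : S * G ^ 2 * ((u⁻¹ * (x 1 - E * x 0)) * (u⁻¹ * (y 1 - E * y 0)) * u
      - (u⁻¹ * (x 1 - E * x 0)) * y 1 - x 1 * (u⁻¹ * (y 1 - E * y 0)) - p 1 ^ 2 * sph p x y)
      = E * (x 0 * y 0 / u) - E⁻¹ * (x 1 * y 1 / u) - p 1 ^ 2 * E⁻¹ * sph p x y := by
    rw [hS]
    field_simp
    ring
  rw [← f]
  have f2 : u = 1 + k * p 1 := hu
  generalize u⁻¹ * (x 1 - E * x 0) = A
  generalize u⁻¹ * (y 1 - E * y 0) = B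
  rw [f2]
  ring

end VSData

end Pool.Agent.Q233.SV
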