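import Pool.Agent.Q233.SV.H

/-!
# Assembly
-/

namespace Pool.Agent.Q233.SV

open Real Set Filter Topology
open scoped ContDiff

theorem pull_exists {a b : ℝ} (hsub : IsSubcase a b) :
    ∃ (W : Set R4) (Φ : Fin 4 → R4 → ℝ) (s : R4 → ℝ) (F P ψ : ℝ → ℝ) (t r m v ρ : R4 → ℝ),
      VSPull W Φ s F P ψ t r m v ρ ∧ W.Nonempty ∧ (∀ x ∈ W, 0 < qq a b x) ∧
      (∀ x ∈ W, x 1 ^ 2 + x 2 ^ 2 ≠ 0) ∧
      (∀ x ∈ W, w2 a b x = exp (-(ψ (t x)) / 2) * s x) ∧
      (∀ x ∈ W, 0 < 1 + P (m x) * r x) := by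
  obtain ⟨D, e, ⟨p0, hp0⟩, hsrc, htgt, hsm, -, hiso⟩ := hsub
  have hreg : ∀ p ∈ e.source, e p ∈ D.region := fun p hp => htgt (e.map_source hp)
  obtain ⟨σ, hσ0, hσs, hσr⟩ := J_inv (hsrc hp0).2.1 (hsrc hp0).2.2
  obtain ⟨δ, hδ, hball, K, hK, hKs⟩ := K_exists D.isOpen_I D.smooth_F
    (D.maps_I _ (hreg p0 hp0).1)
  have hm : ContDiffOn ℝ 3 (fun p => D.m ((e p) 0, (e p) 1)) e.source := by
    intro p hp
    have h1 : ContDiffAt ℝ 3 e p := (hsm.contDiffAt (e.open_source.mem_nhds hp)).of_le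
      ENat.LEInfty.out
    have h2 : ContDiffAt ℝ 3 D.m ((e p) 0, (e p) 1) :=
      (D.smooth_m.contDiffAt (D.isOpen_U.mem_nhds (hreg p hp).1)).of_le ENat.LEInfty.out
    have h3 := contDiffAt_pi.mp h1
    exact (h2.comp p ((h3 0).prodMk (h3 1))).contDiffWithinAt
  -- the open set `W`
  have hev : ∀ᶠ z in 𝓝 (J p0), ContDiffAt ℝ 3 σ z ∧ J (σ z) = z ∧ σ z ∈ e.source ∧
      D.m ((e (σ z)) 0, (e (σ z)) 1) ∈ Metric.ball (D.m ((e p0) 0, (e p0) 1)) δ := by
    have c : Tendsto σ (𝓝 (J p0)) (𝓝 p0) := by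
      have := hσs.continuousAt.tendsto
      rwa [hσ0] at this
    have h1 : ∀ᶠ p in 𝓝 p0, p ∈ e.source := e.open_source.mem_nhds hp0
    have h2 : ∀ᶠ p in 𝓝 p0, D.m ((e p) 0, (e p) 1)
        ∈ Metric.ball (D.m ((e p0) 0, (e p0) 1)) δ :=
      (hm.continuousOn.continuousAt (e.open_source.mem_nhds hp0)).tendsto
        (Metric.ball_mem_nhds _ hδ)
    filter_upwards [hσs.eventually (by decide), hσr, c.eventually h1, c.eventually h2]
      with z a1 a2 a3 a4 using ⟨a1, a2, a3, a4⟩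
  obtain ⟨W, hW, hWo, hz0⟩ := eventually_nhds_iff.mp hev
  let E : R4 → R4 := fun z => e (σ z)
  have hE : ∀ z ∈ W, ContDiffAt ℝ 3 E z := by
    intro z hz
    obtain ⟨a1, -, a3, -⟩ := hW z hz
    exact ((hsm.contDiffAt (e.open_source.mem_nhds a3)).of_le ENat.LEInfty.out).comp z a1
  have hEj : ∀ j, ContDiffOn ℝ 3 (fun z => E z j) W := fun j z hz =>
    (contDiffAt_pi.mp (hE z hz) j).contDiffWithinAt
  have hregE : ∀ z ∈ W, E z ∈ D.region := fun z hz => hreg _ (hW z hz).2.2.1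
  let t : R4 → ℝ := fun z => E z 0
  let r : R4 → ℝ := fun z => E z 1
  let m : R4 → ℝ := fun z => D.m (E z 0, E z 1)
  let ρ : R4 → ℝ := fun z => D.rho (E z)
  let v : R4 → ℝ := fun z => K (m z)
  let T1 : R4 → ℝ := fun q => K (D.m (q 0, q 1)) - D.rho q
  let Φ : Fin 4 → R4 → ℝ := fun a z => pol T1 D.rho a (E z)
  let s : R4 → ℝ := fun z => exp (D.ψ (t z) / 2) * w2 a b z
  have smm : ContDiffOn ℝ 3 m W := by
    intro z hz
    obtain ⟨a1, -, a3, -⟩ := hW z hz
    exact ((hm.contDiffAt (e.open_source.mem_nhds a3)).comp z a1).contDiffWithinAt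
  have hmI : ∀ z ∈ W, m z ∈ D.I := fun z hz => D.maps_I _ (hregE z hz).1
  have smFm : ContDiffOn ℝ 3 (fun z => D.F (m z)) W :=
    (D.smooth_F.of_le ENat.LEInfty.out).comp smm hmI
  have smg : ContDiffOn ℝ 3 (fun z => D.g (E z)) W := (smFm.neg.div_const 2).exp
  have smρ : ContDiffOn ℝ 3 ρ W := (hEj 1).mul smg
  have smv : ContDiffOn ℝ 3 v W := hKs.comp smm fun z hz => (hW z hz).2.2.2
  have smψ : ContDiffOn ℝ 3 (fun z => D.ψ (t z)) W :=
    (D.smooth_ψ.of_le ENat.LEInfty.out).comp (hEj 0) fun z hz => D.maps_T _ (hregE z hz).1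
  -- the region
  have hqq : ∀ z ∈ W, qq a b z = a * (σ z) 0 ^ 2 + b * (σ z) 1 ^ 2 := by
    intro z hz
    have h1 := (hW z hz).2.1
    have h2 : qq a b z = qq a b (J (σ z)) := by rw [h1]
    rw [h2]
    have t2 := Real.sin_sq_add_cos_sq ((σ z) 2)
    have t3 := Real.sin_sq_add_cos_sq ((σ z) 3)
    simp only [qq, J, pol]
    simp
    left
    linear_combination (σ z 1 ^ 2) * t2 + (σ z 1 ^ 2 * sin (σ z 2) ^ 2) * t3
  have hq : ∀ z ∈ W, 0 < qq a b z := fun z hz => by
    rw [hqq z hz]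
    exact (hsrc (hW z hz).2.2.1).1
  have hR : ∀ z ∈ W, z 1 ^ 2 + z 2 ^ 2 ≠ 0 := by
    intro z hz
    obtain ⟨-, h1, h3, -⟩ := hW z hz
    obtain ⟨-, h4, h5⟩ := hsrc h3
    have h6 : z 1 ^ 2 + z 2 ^ 2 = (σ z 1 * sin (σ z 2)) ^ 2 := by
      have t3 := Real.sin_sq_add_cos_sq ((σ z) 3)
      have e1 : z 1 = σ z 1 * (sin (σ z 2) * cos (σ z 3)) := by
        conv_lhs => rw [← h1]
        simp [J, pol]
      have e2 : z 2 = σ z 1 * (sin (σ z 2) * sin (σ z 3)) := by
        conv_lhs => rw [← h1]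
        simp [J, pol]
      rw [e1, e2]
      linear_combination (σ z 1 * sin (σ z 2)) ^ 2 * t3
    rw [h6]
    exact pow_ne_zero _ (mul_ne_zero h4 h5)
  -- the key identities
  have hconf : ∀ z ∈ W, ∀ i j,
      ∑ c, ep c * (s z * pd i (Φ c) z) * (s z * pd j (Φ c) z) = et i j := by
    intro z hz i j
    obtain ⟨a1, a2, a3, a4⟩ := hW z hz
    have dσ : DifferentiableAt ℝ σ z := a1.differentiableAt (by norm_num)
    have de : DifferentiableAt ℝ e (σ z) :=
      (hsm.contDiffAt (e.open_source.mem_nhds a3)).differentiableAt (by simp)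
    have hfE : fderiv ℝ E z = (fderiv ℝ e (σ z)).comp (fderiv ℝ σ z) :=
      fderiv_comp z de dσ
    have dE : DifferentiableAt ℝ E z := de.comp z dσ
    have hpU := (hregE z hz).1
    have hKz := hK _ a4
    -- differentiability of the components of `pol`
    have hT1 : HX T1 (E z) _ := (HX.comp hKz (D.hx_m hpU)).sub (D.hx_rho hpU)
    have hρ1 := D.hx_rho hpU
    have dpol : ∀ c, DifferentiableAt ℝ (pol T1 D.rho c) (E z) := by
      intro c
      have c2 := HX.coord 2 (E z)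
      have c3 := HX.coord 3 (E z)
      have s2 := HX.comp (Real.hasDerivAt_sin ((E z) 2)) c2
      have k2 := HX.comp (Real.hasDerivAt_cos ((E z) 2)) c2
      have s3 := HX.comp (Real.hasDerivAt_sin ((E z) 3)) c3
      have k3 := HX.comp (Real.hasDerivAt_cos ((E z) 3)) c3
      fin_cases c
      · exact hT1.d
      · exact (hρ1.mul (s2.mul k3)).d
      · exact (hρ1.mul (s2.mul s3)).d
      · exact (hρ1.mul k2).d
    have hpd : ∀ i c, pd i (Φ c) z = fderiv ℝ (pol T1 D.rho c) (E z)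
        (fderiv ℝ e (σ z) (fderiv ℝ σ z (Pi.single i 1))) := by
      intro i c
      have : fderiv ℝ (Φ c) z = (fderiv ℝ (pol T1 D.rho c) (E z)).comp (fderiv ℝ E z) :=
        fderiv_comp z (dpol c) dE
      rw [pd, this, hfE]
      rfl
    have hJ : ∀ i c, fderiv ℝ (fun q => J q c) (σ z) (fderiv ℝ σ z (Pi.single i 1))
        = if c = i then 1 else 0 := by
      intro i c
      have dJ : DifferentiableAt ℝ (fun q => J q c) (σ z) :=
        ((contDiff_pi.mp J_smooth c).contDiffAt).differentiableAt (by simp)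
      have h1 : fderiv ℝ (fun z => J (σ z) c) z
          = (fderiv ℝ (fun q => J q c) (σ z)).comp (fderiv ℝ σ z) := fderiv_comp z dJ dσ
      have h2 : pd i (fun z => J (σ z) c) z = pd i (fun z => z c) z :=
        pd_congr hWo (fun y hy => by rw [(hW y hy).2.1]) hz i
      rw [pd_coord, pd, h1] at h2
      exact h2
    have hmet := D.metric_flat (hregE z hz) hKz (fderiv ℝ e (σ z) (fderiv ℝ σ z (Pi.single i 1)))
      (fderiv ℝ e (σ z) (fderiv ℝ σ z (Pi.single j 1)))
    have hiso' : D.metric (E z) (fderiv ℝ e (σ z) (fderiv ℝ σ z (Pi.single i 1)))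
      (fderiv ℝ e (σ z) (fderiv ℝ σ z (Pi.single j 1))) = _ := hiso (σ z) a3 _ _
    rw [hiso', soMetric, ← J_metric, ← hqq z hz] at hmet
    simp only [hJ] at hmet
    have e1 : (∑ c : Fin 4, ep c * (if c = i then (1:ℝ) else 0) * (if c = j then 1 else 0))
        = et i j := by
      fin_cases i <;> fin_cases j <;> simp [et, ep]
    rw [e1] at hmet
    have e2 : (∑ c, ep c * (s z * pd i (Φ c) z) * (s z * pd j (Φ c) z))
        = s z ^ 2 * ∑ c, ep c * pd i (Φ c) z * pd j (Φ c) z := by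
      rw [Finset.mul_sum]
      exact Finset.sum_congr rfl fun c _ => by ring
    rw [e2]
    simp only [hpd]
    have e3 : s z ^ 2 * qq a b z = exp (D.ψ (t z)) := by
      have h1 : w2 a b z ^ 2 * qq a b z = 1 := by
        have := exp_log (hq z hz)
        rw [w2, ← exp_nat_mul]
        nth_rewrite 2 [← this]
        rw [← exp_add]
        rw [show ((2:ℕ):ℝ) * (-log (qq a b z) / 2) + log (qq a b z) = 0 by push_cast; ring,
          exp_zero]
      have h2 : exp (D.ψ (t z) / 2) ^ 2 = exp (D.ψ (t z)) := by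
        rw [← exp_nat_mul]; congr 1; push_cast; ring
      calc s z ^ 2 * qq a b z = exp (D.ψ (t z) / 2) ^ 2 * (w2 a b z ^ 2 * qq a b z) := by
            simp only [s]; ring
        _ = exp (D.ψ (t z)) := by rw [h1, h2, mul_one]
    have hψ0 : exp (D.ψ (t z)) ≠ 0 := (exp_pos _).ne'
    apply mul_left_cancel₀ hψ0
    have e4 : exp (D.ψ (E z 0)) = exp (D.ψ (t z)) := rfl
    rw [e4] at hmet
    linear_combination s z ^ 2 * hmet + et i j * e3
  have smw2 : ContDiffOn ℝ 3 (w2 a b) W := by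
    have h1 : ContDiff ℝ 3 (qq a b) := by
      have c : ∀ j : Fin 4, ContDiff ℝ 3 (fun q : R4 => q j) := fun j => contDiff_apply ℝ ℝ j
      exact (contDiff_const.mul ((c 0).pow 2)).add
        (contDiff_const.mul ((((c 1).pow 2).add ((c 2).pow 2)).add ((c 3).pow 2)))
    exact ((h1.contDiffOn.log fun z hz => (hq z hz).ne').neg.div_const 2).exp
  have hpull : VSPull W Φ s D.F D.P D.ψ t r m v ρ := by
    refine
      { conf :=
          { isOpen := hWo
            smΦ := ?_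
            sms := ((smψ.div_const 2).exp).mul smw2
            pos := fun z _ => mul_pos (exp_pos _) (exp_pos _)
            conf := hconf }
        smt := hEj 0
        smr := hEj 1
        smm := smm
        smv := smv
        smρ := smρ
        smψ := smψ.of_le (by norm_num)
        hF := fun z hz => D.deriv_F _ (hmI z hz)
        hP := fun z hz => (D.smooth_P.contDiffAt (D.isOpen_I.mem_nhds (hmI z hz))).differentiableAt
          (by simp)
        hψ := fun z hz => (D.smooth_ψ.contDiffAt (D.isOpen_T.mem_nhds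
          (D.maps_T _ (hregE z hz).1))).differentiableAt (by simp)
        hψ' := ?_
        Φ0 := fun z hz => rfl
        sph := ?_
        ρ0 := fun z hz => mul_ne_zero (hregE z hz).2.1 (exp_pos _).ne'
        ρr := fun z hz => rfl
        dv := ?_
        dm := ?_ }
    · intro c
      fin_cases c
      · exact smv.sub smρ
      · exact smρ.mul ((hEj 2).sin.mul (hEj 3).cos)
      · exact smρ.mul ((hEj 2).sin.mul (hEj 3).sin)
      · exact smρ.mul (hEj 2).cos
    · intro z hz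
      have h1 : ContDiffOn ℝ 1 (deriv D.ψ) D.T :=
        ((contDiffOn_succ_iff_deriv_of_isOpen (n := 1) D.isOpen_T).mp
          (D.smooth_ψ.of_le (by rw [one_add_one_eq_two]; exact ENat.LEInfty.out))).2.2
      exact (h1.contDiffAt (D.isOpen_T.mem_nhds
          (D.maps_T _ (hregE z hz).1))).differentiableAt (by simp)
    · intro z hz
      have t2 := Real.sin_sq_add_cos_sq (E z 2)
      have t3 := Real.sin_sq_add_cos_sq (E z 3)
      simp only [Φ, pol, ρ]
      simp
      linear_combination (D.rho (E z) ^ 2) * t2 + (D.rho (E z) ^ 2 * sin (E z 2) ^ 2) * t3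
    · intro z hz i
      exact (HP.comp (hK _ (hW z hz).2.2.2) (HP.of_diff
        ((smm.contDiffAt (hWo.mem_nhds hz)).differentiableAt (by norm_num)))).e i
    · intro z hz i
      have dE : DifferentiableAt ℝ E z := (hE z hz).differentiableAt (by norm_num)
      have hx := D.hx_m (hregE z hz).1
      have h1 : fderiv ℝ m z = (fderiv ℝ (fun q => D.m (q 0, q 1)) (E z)).comp (fderiv ℝ E z) :=
        fderiv_comp z hx.d dE
      have h2 : ∀ j, pd i (fun z => E z j) z = fderiv ℝ E z (Pi.single i 1) j := by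
        intro j
        rw [pd, ((hasFDerivAt_pi'.mp dE.hasFDerivAt) j).fderiv]
        simp
      have h3 : pd i m z = fderiv ℝ (fun q => D.m (q 0, q 1)) (E z)
          (fderiv ℝ E z (Pi.single i 1)) := by rw [pd, h1]; rfl
      have h4 : pd i t z = fderiv ℝ E z (Pi.single i 1) 0 := h2 0
      have h5 : pd i r z = fderiv ℝ E z (Pi.single i 1) 1 := h2 1
      have h6 := (D.pos _ (hregE z hz).1).ne'
      rw [h3, hx.e, h4, h5]
      rw [← mul_assoc]
      have h7 : (1 + D.P (m z) * r z) * (1 + D.P (D.m (E z 0, E z 1)) * E z 1)⁻¹ = 1 :=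
        mul_inv_cancel₀ h6
      rw [h7, one_mul]
  refine ⟨W, Φ, s, D.F, D.P, D.ψ, t, r, m, v, ρ, hpull, ⟨_, hz0⟩, hq, hR, fun z hz => ?_,
    fun z hz => D.pos _ (hregE z hz).1⟩
  simp only [s]
  rw [← mul_assoc, ← exp_add, show -D.ψ (t z) / 2 + D.ψ (t z) / 2 = 0 by ring, exp_zero, one_mul]

theorem main {a b : ℝ} (hb : b ≠ 0) (hab : a + b ≠ 0) : ¬ IsSubcase a b := by
  intro hsub
  obtain ⟨W, Φ, s, F, P, ψ, t, r, m, v, ρ, h, h1, h2, h3, h4, -⟩ := pull_exists hsub
  exact h.absurd h1 hb hab h2 h3 h4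

theorem main2 {a b : ℝ} (ha : a < 0) (hab : a + b = 0) : ¬ IsSubcase a b := by
  intro hsub
  obtain ⟨W, Φ, s, F, P, ψ, t, r, m, v, ρ, h, h1, h2, h3, h4, h5⟩ := pull_exists hsub
  exact h.absurd2 h1 ha hab h2 h3 h5 h4

end Pool.Agent.Q233.SV
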