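import Pool.Agent.Q233.SV.M

/-!
# The Friedmann cases are subcases
-/

namespace Pool.Agent.Q233.SV

open Real Set Filter Topology
open scoped ContDiff

theorem VSData.metric_eq (D : VSData) {p : R4} (hp1 : p 1 ≠ 0) (x y : R4) :
    D.metric p x y = exp (D.F (D.m (p 0, p 1)) - D.ψ (p 0)) * (x 0 * y 0 / D.opr p)
      - (exp (D.F (D.m (p 0, p 1)) - D.ψ (p 0)))⁻¹ * (x 1 * y 1 / D.opr p)
      - p 1 ^ 2 * (exp (D.F (D.m (p 0, p 1)) - D.ψ (p 0)))⁻¹ * sph p x y := by
  have e1 : (p 1 / D.rbar p) ^ 2 = exp (D.F (D.m (p 0, p 1)) - D.ψ (p 0)) := by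
    rw [VSData.rbar, div_mul_eq_div_div, div_self hp1, one_div, inv_pow, ← exp_nat_mul, ← exp_neg]
    congr 1
    push_cast
    ring
  have e2 : (D.rbar p / p 1) ^ 2 = (exp (D.F (D.m (p 0, p 1)) - D.ψ (p 0)))⁻¹ := by
    rw [← e1, ← inv_pow, inv_div]
  have e3 : D.rbar p ^ 2 = p 1 ^ 2 * (exp (D.F (D.m (p 0, p 1)) - D.ψ (p 0)))⁻¹ := by
    rw [← e2]; field_simp
  rw [VSData.metric, e1, e2, e3]

theorem fderiv_pi4 {f : R4 → R4} {p : R4} {v : Fin 4 → R4 → ℝ}
    (h : ∀ j, HX (fun q => f q j) p (v j)) (x : R4) (j : Fin 4) :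
    fderiv ℝ f p x j = v j x := by
  have hd : DifferentiableAt ℝ f p := differentiableAt_pi.mpr fun j => (h j).d
  rw [← (h j).e, ((hasFDerivAt_pi'.mp hd.hasFDerivAt) j).fderiv]
  simp

/-- the open partial homeomorphism given by two mutually inverse smooth maps. -/
noncomputable def mkOPH (f g : R4 → R4) (S T : Set R4) (hS : IsOpen S) (hT : IsOpen T)
    (h1 : ∀ p ∈ S, f p ∈ T) (h2 : ∀ p ∈ T, g p ∈ S) (h3 : ∀ p ∈ S, g (f p) = p)
    (h4 : ∀ p ∈ T, f (g p) = p) (hf : ContDiffOn ℝ ∞ f S) (hg : ContDiffOn ℝ ∞ g T) :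
    OpenPartialHomeomorph R4 R4 where
  toFun := f
  invFun := g
  source := S
  target := T
  map_source' := fun p hp => h1 p hp
  map_target' := fun p hp => h2 p hp
  left_inv' := fun p hp => h3 p hp
  right_inv' := fun p hp => h4 p hp
  open_source := hS
  open_target := hT
  continuousOn_toFun := hf.continuousOn
  continuousOn_invFun := hg.continuousOn

/-! ### The flat Friedmann case -/

/-- the time function of the flat case. -/
noncomputable def cT (a t : ℝ) : ℝ := exp (log (3 * t / a) / 3)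

theorem cT_cube {a t : ℝ} (ha : 0 < a) (ht : 0 < t) : a * cT a t ^ 3 = 3 * t := by
  rw [cT, ← exp_nat_mul]
  rw [show ((3:ℕ):ℝ) * (log (3 * t / a) / 3) = log (3 * t / a) by push_cast; ring,
    exp_log (by positivity)]
  field_simp

theorem cT_deriv {a t : ℝ} (ha : 0 < a) (ht : 0 < t) :
    HasDerivAt (cT a) (cT a t / (3 * t)) t := by
  have h1 : HasDerivAt (fun t : ℝ => 3 * t / a) (3 / a) t := by
    simpa using ((hasDerivAt_id t).const_mul 3).div_const a
  have h2 := ((h1.log (by positivity)).div_const 3).exp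
  refine h2.congr_deriv ?_
  rw [cT]
  field_simp

theorem cT_smooth {a : ℝ} (ha : 0 < a) : ContDiffOn ℝ ∞ (cT a) (Ioi 0) := by
  have h1 : ContDiffOn ℝ ∞ (fun t : ℝ => 3 * t / a) (Ioi 0) :=
    (contDiffOn_const.mul contDiffOn_id).div_const a
  exact ((h1.log fun t ht => (div_pos (mul_pos three_pos ht) ha).ne').div_const 3).exp

/-- the data of the flat case. -/
noncomputable def D1 (a : ℝ) (ha : 0 < a) : VSData where
  ψ := fun t => log (a * cT a t ^ 2)
  P := fun _ => 0
  F := fun _ => 0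
  T := Ioi 0
  I := univ
  m := fun p => p.2 - cT a p.1
  U := {p | 0 < p.1}
  isOpen_T := isOpen_Ioi
  isOpen_I := isOpen_univ
  isOpen_U := isOpen_lt continuous_const continuous_fst
  nonempty_U := ⟨(1, 0), by simp⟩
  smooth_ψ := (contDiffOn_const.mul ((cT_smooth ha).pow 2)).log fun t _ =>
    (mul_pos ha (pow_pos (exp_pos _) 2)).ne'
  smooth_P := contDiffOn_const
  smooth_F := contDiffOn_const
  deriv_F := fun s _ => hasDerivAt_const s 0
  smooth_m := contDiff_snd.contDiffOn.sub
    ((cT_smooth ha).comp contDiff_fst.contDiffOn fun p hp => hp)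
  maps_T := fun p hp => hp
  maps_I := fun _ _ => mem_univ _
  pos := fun p _ => by simp
  deriv_r := fun p _ => by
    simpa using (hasDerivAt_id p.2).sub_const (cT a p.1)
  deriv_t := fun p hp => by
    have h1 := (cT_deriv ha hp).const_sub p.2
    refine h1.congr_deriv ?_
    have hc : 0 < cT a p.1 := exp_pos _
    have h3 := cT_cube ha hp
    rw [exp_neg, exp_log (by positivity)]
    simp only [zero_mul, add_zero, inv_one, mul_one, exp_zero]
    rw [← h3]
    field_simp

theorem pos1 {a : ℝ} (ha : 0 < a) : IsSubcase a 0 := by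
  let S : Set R4 := {p | 0 < p 0 ∧ p 1 ≠ 0 ∧ sin (p 2) ≠ 0}
  have hS : IsOpen S := by
    have c : ∀ j : Fin 4, Continuous (fun p : R4 => p j) := fun j => continuous_apply j
    exact (isOpen_lt continuous_const (c 0)).inter
      ((isOpen_ne_fun (c 1) continuous_const).inter
        (isOpen_ne_fun (continuous_sin.comp (c 2)) continuous_const))
  let f : R4 → R4 := fun p => ![a * p 0 ^ 3 / 3, p 1, p 2, p 3]
  let g : R4 → R4 := fun p => ![cT a (p 0), p 1, p 2, p 3]
  have c : ∀ j : Fin 4, ContDiff ℝ ∞ (fun q : R4 => q j) := fun j => contDiff_apply ℝ ℝ j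
  have hf : ContDiffOn ℝ ∞ f S := by
    rw [contDiffOn_pi]
    intro j
    fin_cases j
    · exact ((contDiff_const.mul ((c 0).pow 3)).div_const 3).contDiffOn
    · exact (c 1).contDiffOn
    · exact (c 2).contDiffOn
    · exact (c 3).contDiffOn
  have hg : ContDiffOn ℝ ∞ g S := by
    rw [contDiffOn_pi]
    intro j
    fin_cases j
    · exact (cT_smooth ha).comp (c 0).contDiffOn fun p hp => hp.1
    · exact (c 1).contDiffOn
    · exact (c 2).contDiffOn
    · exact (c 3).contDiffOn
  have hcT : ∀ t : ℝ, 0 < t → cT a (a * t ^ 3 / 3) = t := by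
    intro t ht
    rw [cT, show 3 * (a * t ^ 3 / 3) / a = t ^ 3 by field_simp, log_pow,
      show ((3:ℕ):ℝ) * log t / 3 = log t by push_cast; ring, exp_log ht]
  have h1 : ∀ p ∈ S, f p ∈ S := by
    intro p hp
    obtain ⟨h1, h2, h3⟩ := hp
    exact ⟨by change 0 < a * p 0 ^ 3 / 3; positivity, h2, h3⟩
  have h2 : ∀ p ∈ S, g p ∈ S := by
    intro p hp
    obtain ⟨h1, h2, h3⟩ := hp
    exact ⟨exp_pos _, h2, h3⟩
  have h3 : ∀ p ∈ S, g (f p) = p := by
    intro p hp
    funext j
    fin_cases j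
    · exact hcT _ hp.1
    · rfl
    · rfl
    · rfl
  have h4 : ∀ p ∈ S, f (g p) = p := by
    intro p hp
    funext j
    fin_cases j
    · have := cT_cube ha hp.1
      simp only [f, g]
      simp
      linarith
    · rfl
    · rfl
    · rfl
  refine ⟨D1 a ha, mkOPH f g S S hS hS h1 h2 h3 h4 hf hg, ?_, ?_, ?_, hf, hg, ?_⟩
  · refine ⟨![1, 1, 1, 0], ?_⟩
    refine ⟨by simp, by simp, ?_⟩
    simp only [Matrix.cons_val]
    exact (sin_pos_of_pos_of_lt_pi one_pos (by linarith [pi_gt_three])).ne'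
  · rintro p ⟨h1, h2, h3⟩
    exact ⟨by positivity, h2, h3⟩
  · rintro p ⟨h1, h2, h3⟩
    exact ⟨h1, h2, h3⟩
  · intro p hp x y
    have hp' := h1 p hp
    change (D1 a ha).metric (f p) (fderiv ℝ f p x) (fderiv ℝ f p y) = _
    rw [VSData.metric_eq _ hp'.2.1]
    have hX : ∀ j, HX (fun q => f q j) p
        (fun x => if j = 0 then a * p 0 ^ 2 * x 0 else x j) := by
      intro j
      fin_cases j
      · have h : HasDerivAt (fun t : ℝ => a * t ^ 3 / 3) (a * p 0 ^ 2) (p 0) := by
          have := ((hasDerivAt_pow 3 (p 0)).const_mul a).div_const 3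
          refine this.congr_deriv ?_
          push_cast
          ring
        exact (HX.comp h (HX.coord 0 p)).of_eq fun x => (if_pos rfl).symm
      · exact (HX.coord 1 p).of_eq fun x => by simp
      · exact (HX.coord 2 p).of_eq fun x => by simp
      · exact (HX.coord 3 p).of_eq fun x => by simp
    have hF := fderiv_pi4 hX
    have e1 : exp ((D1 a ha).F ((D1 a ha).m ((f p) 0, (f p) 1)) - (D1 a ha).ψ ((f p) 0))
        = (a * p 0 ^ 2)⁻¹ := by
      have h5 : cT a ((f p) 0) = p 0 := hcT _ hp.1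
      have h6 : (D1 a ha).ψ ((f p) 0) = log (a * p 0 ^ 2) := by
        change log (a * cT a ((f p) 0) ^ 2) = _
        rw [h5]
      have h7 : (D1 a ha).F ((D1 a ha).m ((f p) 0, (f p) 1)) = 0 := rfl
      have h8 : 0 < p 0 := hp.1
      rw [h6, h7, zero_sub, exp_neg, exp_log (by positivity)]
    have e2 : (D1 a ha).opr (f p) = 1 := by simp [VSData.opr, D1]
    have e3 : (f p) 1 = p 1 := rfl
    have e4 : sph (f p) (fderiv ℝ f p x) (fderiv ℝ f p y) = sph p x y := by
      have : (f p) 2 = p 2 := rfl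
      simp only [sph, hF, this]
      simp
    rw [e1, e2, e3, e4, hF, hF, hF, hF, soMetric]
    have h8 : 0 < p 0 := hp.1
    simp
    field_simp

/-! ### The open Friedmann case -/

/-- `log S`, where `S² = -4 t / a`. -/
noncomputable def cL (a t : ℝ) : ℝ := log (-4 * t / a) / 2

theorem cL_deriv {a t : ℝ} (ha : 0 < a) (ht : t < 0) : HasDerivAt (cL a) (1 / (2 * t)) t := by
  have h0 : 0 < -4 * t / a := div_pos (by linarith) ha
  have h1 : HasDerivAt (fun t : ℝ => -4 * t / a) (-4 / a) t := by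
    simpa using ((hasDerivAt_id t).const_mul (-4)).div_const a
  refine ((h1.log h0.ne').div_const 2).congr_deriv ?_
  field_simp

theorem cL_smooth {a : ℝ} (ha : 0 < a) : ContDiffOn ℝ ∞ (cL a) (Iio 0) := by
  have h1 : ContDiffOn ℝ ∞ (fun t : ℝ => -4 * t / a) (Iio 0) :=
    (contDiffOn_const.mul contDiffOn_id).div_const a
  exact (h1.log fun t ht => (div_pos (by have : t < 0 := ht; linarith) ha).ne').div_const 2

/-- `m` in the open case. -/
noncomputable def cm (a : ℝ) (p : ℝ × ℝ) : ℝ := (cL a p.1 - log (1 - 2 * p.2)) / 2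

theorem exp_cm {a : ℝ} {p : ℝ × ℝ} (h2 : p.2 < 1 / 2) :
    exp (-2 * cm a p) = (1 - 2 * p.2) * exp (-(cL a p.1)) := by
  have h : (0:ℝ) < 1 - 2 * p.2 := by linarith
  rw [cm, show -2 * ((cL a p.1 - log (1 - 2 * p.2)) / 2) = log (1 - 2 * p.2) + -(cL a p.1) by ring,
    exp_add, exp_log h]

theorem exp_cL {a t : ℝ} (ha : 0 < a) (ht : t < 0) : a * exp (cL a t) ^ 2 = -4 * t := by
  have h0 : 0 < -4 * t / a := div_pos (by linarith) ha
  rw [cL, ← exp_nat_mul, show ((2:ℕ):ℝ) * (log (-4 * t / a) / 2) = log (-4 * t / a) by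
    push_cast; ring, exp_log h0]
  field_simp

/-- the data of the open case. -/
noncomputable def D2 (a : ℝ) (ha : 0 < a) : VSData where
  ψ := fun t => log a + cL a t
  P := fun _ => -2
  F := fun s => -2 * s
  T := Iio 0
  I := univ
  m := cm a
  U := {p | p.1 < 0 ∧ p.2 < 1 / 2}
  isOpen_T := isOpen_Iio
  isOpen_I := isOpen_univ
  isOpen_U := (isOpen_lt continuous_fst continuous_const).inter
    (isOpen_lt continuous_snd continuous_const)
  nonempty_U := ⟨(-1, 0), by simp⟩
  smooth_ψ := contDiffOn_const.add (cL_smooth ha)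
  smooth_P := contDiffOn_const
  smooth_F := contDiffOn_const.mul contDiffOn_id
  deriv_F := fun s _ => by simpa using (hasDerivAt_id s).const_mul (-2)
  smooth_m := by
    have h1 : ContDiffOn ℝ ∞ (fun p : ℝ × ℝ => cL a p.1) {p | p.1 < 0 ∧ p.2 < 1 / 2} :=
      (cL_smooth ha).comp contDiff_fst.contDiffOn fun p hp => hp.1
    have h2 : ContDiffOn ℝ ∞ (fun p : ℝ × ℝ => 1 - 2 * p.2) {p | p.1 < 0 ∧ p.2 < 1 / 2} :=
      (contDiff_const.sub (contDiff_const.mul contDiff_snd)).contDiffOn
    exact (h1.sub (h2.log fun p hp => by have := hp.2; linarith)).div_const 2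
  maps_T := fun p hp => hp.1
  maps_I := fun _ _ => mem_univ _
  pos := fun p hp => by have := hp.2; linarith
  deriv_r := fun p hp => by
    have h0 : (0:ℝ) < 1 - 2 * p.2 := by have := hp.2; linarith
    have h1 : HasDerivAt (fun r : ℝ => 1 - 2 * r) (-2) p.2 := by
      simpa using ((hasDerivAt_id p.2).const_mul 2).const_sub 1
    have h2 := ((h1.log h0.ne').const_sub (cL a p.1)).div_const 2
    refine h2.congr_deriv ?_
    rw [show 1 + (-2) * p.2 = 1 - 2 * p.2 by ring]
    field_simp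
  deriv_t := fun p hp => by
    have h0 : (0:ℝ) < 1 - 2 * p.2 := by have := hp.2; linarith
    have h2 := ((cL_deriv ha hp.1).sub_const (log (1 - 2 * p.2))).div_const 2
    refine h2.congr_deriv ?_
    have h3 := exp_cm (a := a) (p := p) hp.2
    have h4 := exp_cL ha hp.1
    have h5 : p.1 < 0 := hp.1
    rw [h3, exp_neg, exp_add,
      exp_log ha, exp_neg, show 1 + (-2) * p.2 = 1 - 2 * p.2 by ring]
    have h6 : exp (cL a p.1) ≠ 0 := (exp_pos _).ne'
    have h7 : p.1 ≠ 0 := h5.ne
    have h8 : p.1 = -(a * exp (cL a p.1) ^ 2) / 4 := by linarith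
    generalize exp (cL a p.1) = E at h6 h8
    rw [h8]
    field_simp
    norm_num

theorem pos2 {a : ℝ} (ha : 0 < a) : IsSubcase a (-a) := by
  let S : Set R4 := {p | 0 < p 1 ∧ p 1 < p 0 ∧ sin (p 2) ≠ 0}
  let T : Set R4 := {p | p 0 < 0 ∧ 0 < p 1 ∧ p 1 < 1 / 2 ∧ sin (p 2) ≠ 0}
  have cc : ∀ j : Fin 4, Continuous (fun p : R4 => p j) := fun j => continuous_apply j
  have hsn : IsOpen {p : R4 | sin (p 2) ≠ 0} :=
    isOpen_ne_fun (continuous_sin.comp (cc 2)) continuous_const
  have hS : IsOpen S := (isOpen_lt continuous_const (cc 1)).inter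
      ((isOpen_lt (cc 1) (cc 0)).inter hsn)
  have hT : IsOpen T := (isOpen_lt (cc 0) continuous_const).inter
    ((isOpen_lt continuous_const (cc 1)).inter ((isOpen_lt (cc 1) continuous_const).inter hsn))
  let f : R4 → R4 := fun p => ![-(a / 4) * (p 0 ^ 2 - p 1 ^ 2) ^ 2, p 1 / (p 0 + p 1), p 2, p 3]
  let u : R4 → ℝ := fun p => exp ((cL a (p 0) - log (1 - 2 * p 1)) / 2)
  let w : R4 → ℝ := fun p => exp ((cL a (p 0) + log (1 - 2 * p 1)) / 2)
  let g : R4 → R4 := fun p => ![(u p + w p) / 2, (u p - w p) / 2, p 2, p 3]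
  have c : ∀ j : Fin 4, ContDiff ℝ ∞ (fun q : R4 => q j) := fun j => contDiff_apply ℝ ℝ j
  have hf : ContDiffOn ℝ ∞ f S := by
    rw [contDiffOn_pi]
    intro j
    fin_cases j
    · exact (contDiff_const.mul ((((c 0).pow 2).sub ((c 1).pow 2)).pow 2)).contDiffOn
    · exact (c 1).contDiffOn.div ((c 0).add (c 1)).contDiffOn fun p hp => by
        have h1 := hp.1
        have h2 := hp.2.1
        have : 0 < p 0 + p 1 := by linarith
        exact this.ne'
    · exact (c 2).contDiffOn
    · exact (c 3).contDiffOn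
  have hcL : ContDiffOn ℝ ∞ (fun p : R4 => cL a (p 0)) T :=
    (cL_smooth ha).comp (c 0).contDiffOn fun p hp => hp.1
  have hlg : ContDiffOn ℝ ∞ (fun p : R4 => log (1 - 2 * p 1)) T :=
    ((contDiff_const.sub (contDiff_const.mul (c 1))).contDiffOn).log fun p hp => by
      have := hp.2.2.1
      have : 0 < 1 - 2 * p 1 := by linarith
      exact this.ne'
  have hu : ContDiffOn ℝ ∞ u T := ((hcL.sub hlg).div_const 2).exp
  have hw : ContDiffOn ℝ ∞ w T := ((hcL.add hlg).div_const 2).exp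
  have hg : ContDiffOn ℝ ∞ g T := by
    rw [contDiffOn_pi]
    intro j
    fin_cases j
    · exact (hu.add hw).div_const 2
    · exact (hu.sub hw).div_const 2
    · exact (c 2).contDiffOn
    · exact (c 3).contDiffOn
  have hf0 : ∀ p, f p 0 = -(a / 4) * (p 0 ^ 2 - p 1 ^ 2) ^ 2 := fun p => rfl
  have hf1 : ∀ p, f p 1 = p 1 / (p 0 + p 1) := fun p => rfl
  have hcLf : ∀ p ∈ S, cL a (f p 0) = log (p 0 - p 1) + log (p 0 + p 1) := by
    intro p hp
    have h1 := hp.1
    have h2 := hp.2.1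
    have h3 : 0 < p 0 - p 1 := by linarith
    have h4 : 0 < p 0 + p 1 := by linarith
    rw [hf0, cL, ← log_mul h3.ne' h4.ne',
      show -4 * (-(a / 4) * (p 0 ^ 2 - p 1 ^ 2) ^ 2) / a = ((p 0 - p 1) * (p 0 + p 1)) ^ 2 by
        field_simp; ring, log_pow]
    push_cast
    ring
  have hlgf : ∀ p ∈ S, log (1 - 2 * f p 1) = log (p 0 - p 1) - log (p 0 + p 1) := by
    intro p hp
    have h1 := hp.1
    have h2 := hp.2.1
    have h3 : 0 < p 0 - p 1 := by linarith
    have h4 : 0 < p 0 + p 1 := by linarith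
    rw [hf1, ← log_div h3.ne' h4.ne']
    congr 1
    field_simp
    ring
  have h1 : ∀ p ∈ S, f p ∈ T := by
    intro p hp
    have h1 := hp.1
    have h2 := hp.2.1
    have h3 : 0 < p 0 - p 1 := by linarith
    have h4 : 0 < p 0 + p 1 := by linarith
    refine ⟨?_, ?_, ?_, hp.2.2⟩
    · rw [hf0]
      have : 0 < p 0 ^ 2 - p 1 ^ 2 := by nlinarith
      have h5 : 0 < (a / 4) * (p 0 ^ 2 - p 1 ^ 2) ^ 2 := by positivity
      linarith
    · rw [hf1]; positivity
    · rw [hf1, div_lt_iff₀ h4]; linarith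
  have h2 : ∀ p ∈ T, g p ∈ S := by
    intro p hp
    have h1 := hp.2.1
    have h2 := hp.2.2.1
    have h3 : log (1 - 2 * p 1) < 0 := log_neg (by linarith) (by linarith)
    have h4 : w p < u p := exp_lt_exp.mpr (by linarith)
    have h5 : 0 < w p := exp_pos _
    refine ⟨?_, ?_, hp.2.2.2⟩
    · change 0 < (u p - w p) / 2
      linarith
    · change (u p - w p) / 2 < (u p + w p) / 2
      linarith
  have huf : ∀ p ∈ S, u (f p) = p 0 + p 1 := by
    intro p hp
    have h1 := hp.1
    have h2 := hp.2.1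
    have h4 : 0 < p 0 + p 1 := by linarith
    change exp ((cL a (f p 0) - log (1 - 2 * f p 1)) / 2) = _
    rw [hcLf p hp, hlgf p hp]
    rw [show (log (p 0 - p 1) + log (p 0 + p 1) - (log (p 0 - p 1) - log (p 0 + p 1))) / 2
      = log (p 0 + p 1) by ring, exp_log h4]
  have hwf : ∀ p ∈ S, w (f p) = p 0 - p 1 := by
    intro p hp
    have h1 := hp.1
    have h2 := hp.2.1
    have h4 : 0 < p 0 - p 1 := by linarith
    change exp ((cL a (f p 0) + log (1 - 2 * f p 1)) / 2) = _
    rw [hcLf p hp, hlgf p hp]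
    rw [show (log (p 0 - p 1) + log (p 0 + p 1) + (log (p 0 - p 1) - log (p 0 + p 1))) / 2
      = log (p 0 - p 1) by ring, exp_log h4]
  have h3 : ∀ p ∈ S, g (f p) = p := by
    intro p hp
    funext j
    fin_cases j
    · change (u (f p) + w (f p)) / 2 = p 0
      rw [huf p hp, hwf p hp]; ring
    · change (u (f p) - w (f p)) / 2 = p 1
      rw [huf p hp, hwf p hp]; ring
    · rfl
    · rfl
  have h4 : ∀ p ∈ T, f (g p) = p := by
    intro p hp
    have h1 := hp.1
    have h2 := hp.2.2.1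
    have h3 : (0:ℝ) < 1 - 2 * p 1 := by linarith
    have huw : u p * w p = exp (cL a (p 0)) := by
      simp only [u, w]; rw [← exp_add]; congr 1; ring
    have hwu : w p = (1 - 2 * p 1) * u p := by
      have : w p = exp (log (1 - 2 * p 1)) * u p := by
        simp only [u, w]; rw [← exp_add]; congr 1; ring
      rw [this, exp_log h3]
    have hu0 : 0 < u p := exp_pos _
    funext j
    fin_cases j
    · change -(a / 4) * (((u p + w p) / 2) ^ 2 - ((u p - w p) / 2) ^ 2) ^ 2 = p 0
      have h5 := exp_cL ha h1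
      rw [← huw] at h5
      linear_combination (-1 / 4) * h5
    · change (u p - w p) / 2 / ((u p + w p) / 2 + (u p - w p) / 2) = p 1
      rw [hwu]
      field_simp
      ring
    · rfl
    · rfl
  refine ⟨D2 a ha, mkOPH f g S T hS hT h1 h2 h3 h4 hf hg, ?_, ?_, ?_, hf, hg, ?_⟩
  · refine ⟨![2, 1, 1, 0], ?_⟩
    refine ⟨by simp, by simp, ?_⟩
    simp only [Matrix.cons_val]
    exact (sin_pos_of_pos_of_lt_pi one_pos (by linarith [pi_gt_three])).ne'
  · rintro p ⟨h1, h2, h3⟩
    refine ⟨?_, h1.ne', h3⟩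
    have : 0 < (p 0 - p 1) * (p 0 + p 1) := mul_pos (by linarith) (by linarith)
    nlinarith
  · rintro p ⟨h1, h2, h3, h4⟩
    exact ⟨⟨h1, h3⟩, h2.ne', h4⟩
  · intro p hp x y
    have hp' := h1 p hp
    have k1 : 0 < p 1 := hp.1
    have k2 : p 1 < p 0 := hp.2.1
    have k3 : 0 < p 0 - p 1 := by linarith
    have k4 : 0 < p 0 + p 1 := by linarith
    change (D2 a ha).metric (f p) (fderiv ℝ f p x) (fderiv ℝ f p y) = _
    rw [VSData.metric_eq _ hp'.2.1.ne']
    have hX : ∀ j, HX (fun q => f q j) p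
        (fun x => if j = 0 then -a * (p 0 ^ 2 - p 1 ^ 2) * (p 0 * x 0 - p 1 * x 1)
          else if j = 1 then (p 0 * x 1 - p 1 * x 0) / (p 0 + p 1) ^ 2 else x j) := by
      intro j
      fin_cases j
      · have s0 := HX.comp (hasDerivAt_pow 2 (p 0)) (HX.coord 0 p)
        have s1 := HX.comp (hasDerivAt_pow 2 (p 1)) (HX.coord 1 p)
        have s2 := s0.sub s1
        have s3 : HasDerivAt (fun t : ℝ => -(a / 4) * t ^ 2) (-(a / 2) * (p 0 ^ 2 - p 1 ^ 2))
            (p 0 ^ 2 - p 1 ^ 2) := by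
          refine ((hasDerivAt_pow 2 (p 0 ^ 2 - p 1 ^ 2)).const_mul (-(a / 4))).congr_deriv ?_
          push_cast
          ring
        refine (HX.comp s3 s2).of_eq fun x => ?_
        simp
        ring
      · have s0 : HX (fun q : R4 => q 0 + q 1) p (fun x => x 0 + x 1) := by
          have := (HX.coord 0 p).sub (HX.comp (hasDerivAt_neg (p 1)) (HX.coord 1 p))
          have e : (fun q : R4 => q 0 - -q 1) = fun q => q 0 + q 1 := by funext q; ring
          rw [e] at this
          exact this.of_eq fun x => by ring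
        have s1 := HX.comp (hasDerivAt_inv k4.ne') s0
        have s2 := (HX.coord 1 p).mul s1
        have e : (fun q : R4 => q 1 * (q 0 + q 1)⁻¹) = fun q => f q 1 := by
          funext q; rw [hf1, div_eq_mul_inv]
        rw [e] at s2
        refine s2.of_eq fun x => ?_
        simp
        field_simp
        ring
      · exact (HX.coord 2 p).of_eq fun x => by simp
      · exact (HX.coord 3 p).of_eq fun x => by simp
    have hF := fderiv_pi4 hX
    have e1 : exp ((D2 a ha).F ((D2 a ha).m ((f p) 0, (f p) 1)) - (D2 a ha).ψ ((f p) 0))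
        = (a * (p 0 ^ 2 - p 1 ^ 2) * (p 0 + p 1) ^ 2)⁻¹ := by
      have h6 : (D2 a ha).ψ ((f p) 0) = log a + (log (p 0 - p 1) + log (p 0 + p 1)) := by
        change log a + cL a ((f p) 0) = _
        rw [hcLf p hp]
      have h7 : (D2 a ha).F ((D2 a ha).m ((f p) 0, (f p) 1)) = -2 * log (p 0 + p 1) := by
        change -2 * ((cL a (f p 0) - log (1 - 2 * (f p 1))) / 2) = _
        rw [hcLf p hp, hlgf p hp]
        ring
      rw [h6, h7, show -2 * log (p 0 + p 1) - (log a + (log (p 0 - p 1) + log (p 0 + p 1)))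
        = -(log a + log (p 0 - p 1) + (log (p 0 + p 1) + log (p 0 + p 1) + log (p 0 + p 1)))
          by ring,
        exp_neg, exp_add, exp_add, exp_add, exp_add, exp_log ha, exp_log k3, exp_log k4]
      congr 1
      ring
    have e2 : (D2 a ha).opr (f p) = (p 0 - p 1) / (p 0 + p 1) := by
      change 1 + (-2) * (f p 1) = _
      rw [hf1]
      field_simp
      ring
    have e3 : (f p) 1 = p 1 / (p 0 + p 1) := rfl
    have e4 : sph (f p) (fderiv ℝ f p x) (fderiv ℝ f p y) = sph p x y := by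
      have : (f p) 2 = p 2 := rfl
      simp only [sph, hF, this]
      simp
    rw [e1, e2, e3, e4, hF, hF, hF, hF, soMetric]
    have k5 : p 0 ^ 2 - p 1 ^ 2 = (p 0 - p 1) * (p 0 + p 1) := by ring
    simp only [k5]
    simp
    field_simp
    ring

end Pool.Agent.Q233.SV
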